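import Pool.Agent.N203.RE.Defs

/-!
# Type A: definitions
-/

set_option autoImplicit false

namespace Pool.Agent.N203.TA

open NumberField IsDedekindDomain Module Polynomial TensorProduct Pool.Agent.Y114.RM
  Pool.Agent.Y114.MU Pool.Agent.Y114.TF Pool.Agent.Y114.GF Pool.Agent.R931.IR Pool.Agent.N203.RE

section typeA

/-- `e` is a homomorphism of Lie algebras from the `d × d`-matrices to the endomorphisms of `V`, its
kernel consists of the scalar matrices, its image is contained in `G`, and `G` is the sum of the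
image and of its centralizer in `G`: so the image is an ideal and a direct factor of `G`, and it is
isomorphic to the Lie algebra of the `d × d`-matrices of trace zero. -/
structure SlFactor {V : Type} [AddCommGroup V] [Module ℂ V] (G : Submodule ℂ (End ℂ V)) {d : ℕ}
    (e : Matrix (Fin d) (Fin d) ℂ →ₗ[ℂ] End ℂ V) : Prop where
  bracket : ∀ x y, e (x * y - y * x) = e x * e y - e y * e x
  kernel : ∀ x, e x = 0 ↔ ∃ c : ℂ, x = c • 1
  mem : ∀ x, e x ∈ G
  split : ∀ X ∈ G, ∃ x, ∀ y, (X - e x) * e y = e y * (X - e x)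

/-- The elements of `G` which commute with `G`. -/
def centreOf {K V : Type} [Field K] [AddCommGroup V] [Module K V] (G : Submodule K (End K V)) :
    Set (End K V) := {z | z ∈ G ∧ ∀ X ∈ G, z * X = X * z}

variable {H : Type} [AddCommGroup H] [Module ℚ H]

/-- The part of type A of `𝔤 ⊗ ℂ`: the sum of the centre and of all ideals isomorphic to the Lie
algebra of the `d × d`-matrices of trace zero, for all `d`. -/
noncomputable def partA (𝔤 : Submodule ℚ (End ℚ H)) : Submodule ℂ (End ℂ (ℂ ⊗[ℚ] H)) :=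
  Submodule.span ℂ (centreOf (bcS ℂ 𝔤) ∪
    {X | ∃ (d : ℕ) (e : Matrix (Fin d) (Fin d) ℂ →ₗ[ℂ] End ℂ (ℂ ⊗[ℚ] H)),
      SlFactor (bcS ℂ 𝔤) e ∧ X ∈ Set.range e})

/-- `𝔤 ⊗ ℂ` is a direct sum of its centre and of special linear Lie algebras. -/
def TypeA (𝔤 : Submodule ℚ (End ℚ H)) : Prop := bcS ℂ 𝔤 ≤ partA 𝔤

end typeA

section main

variable {Γ : Type} [Group Γ] {ι : Type} {n : ι → ℕ}

/-- The elements `σ` of the absolute Galois group of `ℚ` such that `s σ` has `r` multiplicatively
independent eigenvalues exist, and they generate a dense subgroup. -/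
def FullElementsGenerate {ℓ₀ : ℕ} [Fact ℓ₀.Prime] (s : Gal(AlgebraicClosure ℚ/ℚ) →* Γ)
    (ρ₀ : Reps Γ n ℓ₀) (r : ℕ) : Prop :=
  (∃ σ, IndependentEigenvalues ρ₀ (s σ) r) ∧
    Dense (Subgroup.closure {σ | IndependentEigenvalues ρ₀ (s σ) r} :
      Set Gal(AlgebraicClosure ℚ/ℚ))

variable [DecidableEq ι] {ℓ : ℕ} [Fact ℓ.Prime]

/-- The centre of `𝔥` consists of multiples of the weight operator: it acts by a multiple of `w i` on
the `i`-th summand, with the same factor for all `i`. -/
def CentreOfWeights (w : ι → ℤ) (𝔥 : Submodule ℚ_[ℓ] (LadicEnd n ℓ)) : Prop :=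
  ∀ z ∈ centreOf 𝔥, ∃ κ : ℚ_[ℓ], ∀ x i, z x i = (κ * (w i : ℚ_[ℓ])) • x i

/-- What is proved at the prime number `ℓ`. -/
structure AtPrime (w : ι → ℤ) (ρ : Reps Γ n ℓ) (𝔤 : Submodule ℚ (End ℚ (Betti n))) (r : ℕ) :
    Prop where
  /-- The representation is semisimple over all finite extensions. -/
  semisimple : Semisimple ρ
  /-- The Lie algebra of the Tate tensors is reductive of maximal rank, its centre consists of
  multiples of the weight operator, and it contains all subspaces of `𝔤` contained in the part of type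
  A. -/
  structure_ : ∃ 𝔥 : EndSpace n ℓ, KillsTateTensors ρ 𝔥 ∧ ReductiveOfRank (scalars ℓ 𝔤) 𝔥 r ∧
    CentreOfWeights w 𝔥 ∧ ∀ 𝔞 ≤ 𝔤, bcS ℂ 𝔞 ≤ partA 𝔤 → Contained (scalars ℓ 𝔞) 𝔥
  /-- If `𝔤` is of type A, all Tate tensors are motivated. -/
  typeA : TypeA 𝔤 → TateMotivated ρ 𝔤

end main

end Pool.Agent.N203.TA
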