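import Mathlib

/-!
# Matrix Lie algebras which contain the diagonal matrices and have no invariant set of coordinates
-/

set_option autoImplicit false

namespace Pool.Agent.N203.TA

open Matrix

variable {κ : Type} [Fintype κ] [DecidableEq κ]

theorem mul_single_apply' (x : Matrix κ κ ℂ) (i j a b : κ) :
    (x * single i j (1 : ℂ)) a b = if b = j then x a i else 0 := by
  rw [Matrix.mul_apply]
  by_cases h : b = j
  · subst h
    rw [if_pos rfl, Finset.sum_eq_single i]
    · simp [Matrix.single]
    · intro c _ hc
      simp [Matrix.single, Ne.symm hc]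
    · intro h
      exact absurd (Finset.mem_univ i) h
  · rw [if_neg h]
    refine Finset.sum_eq_zero fun c _ => ?_
    simp [Matrix.single, Ne.symm h]

theorem single_mul_apply' (x : Matrix κ κ ℂ) (i j a b : κ) :
    (single i j (1 : ℂ) * x) a b = if a = i then x j b else 0 := by
  rw [Matrix.mul_apply]
  by_cases h : a = i
  · subst h
    rw [if_pos rfl, Finset.sum_eq_single j]
    · simp [Matrix.single]
    · intro c _ hc
      simp [Matrix.single, Ne.symm hc]
    · intro h
      exact absurd (Finset.mem_univ j) h
  · rw [if_neg h]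
    refine Finset.sum_eq_zero fun c _ => ?_
    simp [Matrix.single, Ne.symm h]

/-- A Lie algebra of matrices which contains the diagonal matrices and is not block triangular is
the Lie algebra of all matrices. -/
theorem eq_top_of_irr (S : Submodule ℂ (Matrix κ κ ℂ))
    (hbr : ∀ x ∈ S, ∀ y ∈ S, x * y - y * x ∈ S) (hd : ∀ i, single i i (1 : ℂ) ∈ S)
    (hirr : ∀ W : Set κ, (∀ x ∈ S, ∀ i, i ∉ W → ∀ j ∈ W, x i j = 0) → W = ∅ ∨ W = Set.univ) :
    S = ⊤ := by
  -- the entries
  have hent : ∀ x ∈ S, ∀ i j, i ≠ j → single i j (x i j) ∈ S := by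
    intro x hx i j hij
    have h1 := hbr _ (hbr _ (hd i) _ hx) _ (hd j)
    have h2 := hbr _ (hd i) _ h1
    have h3 : (2 : ℂ) • single i j (x i j) =
        (single i i (1 : ℂ) * x - x * single i i 1) * single j j 1 -
          single j j 1 * (single i i (1 : ℂ) * x - x * single i i 1) +
        (single i i 1 * ((single i i (1 : ℂ) * x - x * single i i 1) * single j j 1 -
          single j j 1 * (single i i (1 : ℂ) * x - x * single i i 1)) -
        ((single i i (1 : ℂ) * x - x * single i i 1) * single j j 1 -
          single j j 1 * (single i i (1 : ℂ) * x - x * single i i 1)) * single i i 1) := by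
      ext a b
      simp only [Matrix.add_apply, Matrix.sub_apply, Matrix.smul_apply, mul_single_apply',
        single_mul_apply', smul_eq_mul]
      have h4 : single i j (x i j) a b = if a = i ∧ b = j then x i j else 0 := by
        by_cases h : a = i ∧ b = j
        · rw [if_pos h, h.1, h.2]
          simp [Matrix.single]
        · rw [if_neg h]
          simp only [Matrix.single, Matrix.of_apply]
          rw [if_neg]
          rintro ⟨h5, h6⟩
          exact h ⟨h5.symm, h6.symm⟩
      rw [h4]
      by_cases ha : a = i <;> by_cases hb : b = j <;> by_cases ha' : a = j <;>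
        by_cases hb' : b = i <;> simp_all <;> (try ring)
    have h5 : single i j (x i j) = (2 : ℂ)⁻¹ • ((2 : ℂ) • single i j (x i j)) := by
      rw [smul_smul, inv_mul_cancel₀ two_ne_zero, one_smul]
    rw [h5, h3]
    exact S.smul_mem _ (S.add_mem h1 h2)
  have hent1 : ∀ x ∈ S, ∀ i j, i ≠ j → x i j ≠ 0 → single i j (1 : ℂ) ∈ S := by
    intro x hx i j hij h
    have h1 : single i j (1 : ℂ) = (x i j)⁻¹ • single i j (x i j) := by
      rw [Matrix.smul_single, smul_eq_mul, inv_mul_cancel₀ h]
    rw [h1]
    exact S.smul_mem _ (hent x hx i j hij)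
  have htrans : ∀ i j k, single i j (1 : ℂ) ∈ S → single j k (1 : ℂ) ∈ S →
      single i k (1 : ℂ) ∈ S := by
    intro i j k h1 h2
    by_cases hik : i = k
    · rw [hik]
      exact hd k
    have h3 := hbr _ h1 _ h2
    rw [Matrix.single_mul_single_same, Matrix.single_mul_single_of_ne (h := Ne.symm hik), sub_zero,
      mul_one] at h3
    exact h3
  have hall : ∀ i j, single i j (1 : ℂ) ∈ S := by
    intro i j
    rcases hirr {a | single a j (1 : ℂ) ∈ S} (by
      intro x hx a ha b hb
      by_contra h
      have hab : a ≠ b := by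
        rintro rfl
        exact ha hb
      exact ha (htrans a b j (hent1 x hx a b hab h) hb)) with h | h
    · have h1 : j ∈ ({a | single a j (1 : ℂ) ∈ S} : Set κ) := hd j
      rw [h] at h1
      exact absurd h1 (Set.notMem_empty j)
    · have h1 : i ∈ ({a | single a j (1 : ℂ) ∈ S} : Set κ) := by rw [h]; trivial
      exact h1
  rw [eq_top_iff]
  intro x _
  rw [Matrix.matrix_eq_sum_single x]
  refine Submodule.sum_mem _ fun i _ => Submodule.sum_mem _ fun j _ => ?_
  have h1 : single i j (x i j) = (x i j) • single i j (1 : ℂ) := by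
    rw [Matrix.smul_single, smul_eq_mul, mul_one]
  rw [h1]
  exact S.smul_mem _ (hall i j)

end Pool.Agent.N203.TA
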