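import Pool.Agent.R931.BD.Main
import Pool.Agent.N203.TA.Irr

/-!
# Subalgebras of maximal rank with small centre contain the ideals of type A
-/

set_option autoImplicit false
set_option linter.unusedSectionVars false

namespace Pool.Agent.N203.TA

open Module Polynomial Pool.Agent.Y114.RM Pool.Agent.Y212.RM Pool.Agent.R931.BD

section scalars

variable {U : Type} [AddCommGroup U] [Module ℂ U] [FiniteDimensional ℂ U]

theorem comm_eq_zero {x y : End ℂ U} (h : ∃ c : ℂ, x * y - y * x = c • 1) : x * y - y * x = 0 := by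
  obtain ⟨c, hc⟩ := h
  have h1 := trace_lie_zero x y
  rw [hc, map_smul, LinearMap.trace_one, smul_eq_mul, mul_eq_zero] at h1
  rcases h1 with h1 | h1
  · rw [hc, h1, zero_smul]
  · have h2 : Module.finrank ℂ U = 0 := by exact_mod_cast h1
    have h3 : Subsingleton U := Module.finrank_zero_iff.1 h2
    exact LinearMap.ext fun u => Subsingleton.elim _ _

theorem scalar_of_central {x : End ℂ U} (h : ∀ y, x * y = y * x) : ∃ c : ℂ, x = c • 1 := by
  have h1 : x ∈ Set.center (End ℂ U) := by
    rw [Semigroup.mem_center_iff]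
    exact fun y => (h y).symm
  obtain ⟨c, hc, hx⟩ := Module.End.mem_center_iff.1 h1
  refine ⟨c, ?_⟩
  rw [hx]
  exact LinearMap.ext fun u => rfl

theorem nonDeg_top : NonDeg (⊤ : Submodule ℂ (End ℂ U)) := by
  intro x _ hx
  refine LinearMap.ext fun u => ?_
  rw [LinearMap.zero_apply]
  by_contra hne
  obtain ⟨g, hg⟩ : ∃ g : Module.Dual ℂ U, g (x u) ≠ 0 := by
    by_contra hcon
    push Not at hcon
    exact hne ((Module.forall_dual_apply_eq_zero_iff ℂ (x u)).1 hcon)
  apply hg
  have h1 := hx (g.smulRight u) trivial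
  have h2 : x * g.smulRight u = g.smulRight (x u) := by
    refine LinearMap.ext fun v => ?_
    rw [Module.End.mul_apply, LinearMap.smulRight_apply, map_smul, LinearMap.smulRight_apply]
  rw [h2] at h1
  rwa [LinearMap.trace_smulRight] at h1

end scalars

/-- `ψ` is a homomorphism of Lie algebras from the Lie algebra of all endomorphisms of `U`, its kernel
consists of the scalars, and its image is a direct factor of `G`. -/
structure Factor {V : Type} [AddCommGroup V] [Module ℂ V] {U : Type} [AddCommGroup U] [Module ℂ U]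
    (G : Submodule ℂ (End ℂ V)) (ψ : End ℂ U →ₗ[ℂ] End ℂ V) : Prop where
  bracket : ∀ x y, ψ (x * y - y * x) = ψ x * ψ y - ψ y * ψ x
  one : ψ 1 = 0
  ker : ∀ x, ψ x = 0 → ∃ c : ℂ, x = c • 1
  mem : ∀ x, ψ x ∈ G
  split : ∀ X ∈ G, ∃ x, ∀ y, (X - ψ x) * ψ y = ψ y * (X - ψ x)

section factor

variable {V : Type} [AddCommGroup V] [Module ℂ V] [FiniteDimensional ℂ V] {U : Type}
  [AddCommGroup U] [Module ℂ U] [FiniteDimensional ℂ U] {G L t : Submodule ℂ (End ℂ V)}
  {ψ : End ℂ U →ₗ[ℂ] End ℂ V}

theorem Factor.zero_of (F : Factor G ψ) {x y : End ℂ U} (h : ψ (x * y - y * x) = 0) :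
    x * y - y * x = 0 := comm_eq_zero (F.ker _ h)

theorem Factor.adE (F : Factor G ψ) (x y : End ℂ U) :
    ψ (Y114.RM.adE x y) = Y114.RM.adE (ψ x) (ψ y) := F.bracket x y

/-- an element of the torus splits -/
theorem Factor.split_torus (F : Factor G ψ) (TG : Tor G t) {a : End ℂ V} (ha : a ∈ t) :
    ∃ x, ψ x ∈ t ∧ ∀ y, (a - ψ x) * ψ y = ψ y * (a - ψ x) := by
  obtain ⟨x, hx⟩ := F.split a (TG.le ha)
  refine ⟨x, TG.cen _ (F.mem x) fun b hb => ?_, hx⟩
  obtain ⟨y, hy⟩ := F.split b (TG.le hb)
  have hab := TG.comm a ha b hb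
  -- `ψ [x, y]` commutes with the image
  have h1 : ψ (x * y - y * x) =
      -((a - ψ x) * (b - ψ y) - (b - ψ y) * (a - ψ x)) := by
    have h2 : (a - ψ x) * (b - ψ y) - (b - ψ y) * (a - ψ x) =
        (a * b - b * a) - ((a - ψ x) * ψ y - ψ y * (a - ψ x)) +
          ((b - ψ y) * ψ x - ψ x * (b - ψ y)) - (ψ x * ψ y - ψ y * ψ x) := by noncomm_ring
    rw [h2, hx, hy, sub_self, sub_self, hab, sub_self, F.bracket]
    noncomm_ring
  have h2 : ∀ z, ψ (x * y - y * x) * ψ z = ψ z * ψ (x * y - y * x) := by
    intro z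
    rw [h1, neg_mul, mul_neg, neg_inj]
    have e1 : (a - ψ x) * (b - ψ y) * ψ z = ψ z * ((a - ψ x) * (b - ψ y)) := by
      rw [mul_assoc, hy z, ← mul_assoc, hx z, mul_assoc]
    have e2 : (b - ψ y) * (a - ψ x) * ψ z = ψ z * ((b - ψ y) * (a - ψ x)) := by
      rw [mul_assoc, hx z, ← mul_assoc, hy z, mul_assoc]
    rw [sub_mul ((a - ψ x) * (b - ψ y)), e1, e2, ← mul_sub]
  have h3 : x * y - y * x = 0 := by
    refine comm_eq_zero (scalar_of_central fun z => ?_)
    have h4 : ψ ((x * y - y * x) * z - z * (x * y - y * x)) = 0 := by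
      rw [F.bracket, h2, sub_self]
    exact sub_eq_zero.1 (F.zero_of h4)
  have h4 : ψ x * ψ y = ψ y * ψ x := by
    rw [← sub_eq_zero, ← F.bracket, h3, map_zero]
  calc b * ψ x = (b - ψ y) * ψ x + ψ y * ψ x := by noncomm_ring
    _ = ψ x * (b - ψ y) + ψ x * ψ y := by rw [hy, h4]
    _ = ψ x * b := by noncomm_ring

theorem Factor.comm (F : Factor G ψ) (TG : Tor G t) {x y : End ℂ U} (hx : ψ x ∈ t)
    (hy : ψ y ∈ t) : x * y = y * x := by
  rw [← sub_eq_zero]
  apply F.zero_of
  rw [F.bracket, TG.comm _ hx _ hy, sub_self]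

theorem Factor.cen (F : Factor G ψ) (TG : Tor G t) {y : End ℂ U}
    (hy : ∀ x, ψ x ∈ t → x * y = y * x) : ψ y ∈ t := by
  refine TG.cen _ (F.mem y) fun a ha => ?_
  obtain ⟨x, hx, hax⟩ := F.split_torus TG ha
  have h1 : ψ x * ψ y = ψ y * ψ x := by
    rw [← sub_eq_zero, ← F.bracket, hy x hx, sub_self, map_zero]
  calc a * ψ y = (a - ψ x) * ψ y + ψ x * ψ y := by noncomm_ring
    _ = ψ y * (a - ψ x) + ψ y * ψ x := by rw [hax, h1]
    _ = ψ y * a := by noncomm_ring

theorem Factor.diag (F : Factor G ψ) (TG : Tor G t) {x : End ℂ U} (hx : ψ x ∈ t) :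
    ⨆ μ, End.eigenspace x μ = ⊤ := by
  obtain ⟨n, hn, s, hs, hnn, hss, hxs⟩ := x.exists_isNilpotent_isSemisimple
  have hcomm : n * s = s * n := by
    have h1 : n * x = x * n := by
      have h2 : Algebra.adjoin ℂ {x} ≤ Subalgebra.centralizer ℂ {x} := by
        refine Algebra.adjoin_le ?_
        rintro _ rfl
        rw [SetLike.mem_coe, Subalgebra.mem_centralizer_iff]
        rintro _ rfl
        rfl
      have h3 := h2 hn
      rw [Subalgebra.mem_centralizer_iff] at h3
      exact (h3 x rfl).symm
    have h3 : s = x - n := by rw [hxs]; abel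
    rw [h3, mul_sub, sub_mul, h1]
  have hsd : ⨆ μ, End.eigenspace s μ = ⊤ := hss.iSup_eigenspace_eq_top
  have hadn : IsNilpotent (Y114.RM.adE n) := by
    unfold Y114.RM.adE
    refine Commute.isNilpotent_sub (LinearMap.commute_mulLeft_right n n) ?_ ?_
    · obtain ⟨k, hk⟩ := hnn
      refine ⟨k, ?_⟩
      rw [LinearMap.pow_mulLeft, hk]
      exact LinearMap.mulLeft_zero_eq_zero ℂ (End ℂ U)
    · obtain ⟨k, hk⟩ := hnn
      refine ⟨k, ?_⟩
      rw [LinearMap.pow_mulRight, hk]
      exact LinearMap.mulRight_zero_eq_zero ℂ (End ℂ U)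
  obtain ⟨k, hk⟩ := hadn
  have hA := adE_semisimple (TG.diag _ hx)
  have hzero : ∀ z, Y114.RM.adE n z = 0 := by
    intro z
    have hz : z ∈ ⨆ μ, End.eigenspace (Y114.RM.adE s) μ := by
      rw [(adE_semisimple hsd).iSup_eigenspace_eq_top]
      trivial
    induction hz using Submodule.iSup_induction' with
    | zero => rw [map_zero]
    | add x y _ _ hx hy => rw [map_add, hx, hy, add_zero]
    | mem μ z hz =>
      rw [Module.End.mem_eigenspace_iff] at hz
      have h1 : Y114.RM.adE n z = Y114.RM.adE x z - μ • z := by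
        have h2 : Y114.RM.adE x z = Y114.RM.adE n z + Y114.RM.adE s z := by
          rw [adE_apply, adE_apply, adE_apply, hxs]
          noncomm_ring
        rw [h2, hz, add_sub_cancel_right]
      have hcs : ∀ m : ℕ, Y114.RM.adE s ((Y114.RM.adE n ^ m) z) = μ • (Y114.RM.adE n ^ m) z := by
        intro m
        have h3 : Commute (Y114.RM.adE s) (Y114.RM.adE n) := by
          have h4 := adE_comm s n
          rw [← hcomm, sub_self] at h4
          have h5 : Y114.RM.adE (0 : End ℂ U) = 0 := by
            refine LinearMap.ext fun Z => ?_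
            rw [adE_apply, zero_mul, mul_zero, sub_self]
            rfl
          rw [h5] at h4
          exact sub_eq_zero.1 h4
        have h4 := congrArg (fun T => T z) (h3.pow_right m).eq
        simp only [Module.End.mul_apply] at h4
        rw [h4, hz, map_smul]
      -- the powers of `ad A - μ` at `ψ z`
      have hpow : ∀ m : ℕ, ((Y114.RM.adE (ψ x) - algebraMap ℂ _ μ) ^ m) (ψ z) =
          ψ ((Y114.RM.adE n ^ m) z) := by
        intro m
        induction m with
        | zero => rfl
        | succ m ih =>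
          rw [pow_succ', Module.End.mul_apply, ih, pow_succ', Module.End.mul_apply,
            LinearMap.sub_apply, ← F.adE, Module.algebraMap_end_apply, ← map_smul, ← map_sub]
          congr 1
          have h2 : Y114.RM.adE x ((Y114.RM.adE n ^ m) z) =
              Y114.RM.adE n ((Y114.RM.adE n ^ m) z) + Y114.RM.adE s ((Y114.RM.adE n ^ m) z) := by
            rw [adE_apply, adE_apply, adE_apply, hxs]
            noncomm_ring
          rw [h2, hcs, add_sub_cancel_right]
      have h2 : ψ z ∈ (Y114.RM.adE (ψ x)).maxGenEigenspace μ := by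
        rw [Module.End.mem_maxGenEigenspace]
        refine ⟨k, ?_⟩
        have h3 := hpow k
        rw [hk, LinearMap.zero_apply, map_zero] at h3
        exact h3
      rw [hA.isFinitelySemisimple.maxGenEigenspace_eq_eigenspace, Module.End.mem_eigenspace_iff]
        at h2
      have h3 : ψ (n * z - z * n) = 0 := by
        have h4 : n * z - z * n = Y114.RM.adE n z := rfl
        rw [h4, h1, map_sub, F.adE, h2, map_smul, sub_self]
      exact F.zero_of h3
  obtain ⟨c, hc⟩ := scalar_of_central (x := n) fun y => sub_eq_zero.1 (hzero y)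
  have h0 : n = 0 := by
    obtain ⟨m, hm⟩ := hnn
    rw [hc, _root_.smul_pow, one_pow] at hm
    by_cases hU : (1 : End ℂ U) = 0
    · rw [hc, hU, smul_zero]
    · have h1 : c ^ m = 0 := (smul_eq_zero.1 hm).resolve_right hU
      rw [hc, eq_zero_of_pow_eq_zero h1, zero_smul]
  rw [hxs, h0, zero_add]
  exact hsd

/-- a basis whose diagonal matrices are in the torus -/
theorem Factor.exists_basis (F : Factor G ψ) (TG : Tor G t) :
    ∃ (κ : Type) (_ : Fintype κ) (_ : DecidableEq κ) (b : Basis κ ℂ U),
      ∀ i, ψ (Matrix.toLin b b (Matrix.single i i 1)) ∈ t := by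
  classical
  have TU : Tor (⊤ : Submodule ℂ (End ℂ U)) (t.comap ψ) :=
    ⟨fun _ _ _ _ => trivial, nonDeg_top, le_top, fun a ha => F.diag TG ha,
      fun a ha b hb => F.comm TG ha hb, fun x _ h => F.cen TG fun y hy => h y hy⟩
  obtain ⟨D, hD, hreg⟩ := exists_regular TU
  have hint : DirectSum.IsInternal (fun μ => End.eigenspace D μ) :=
    DirectSum.isInternal_submodule_of_iSupIndep_of_iSup_eq_top (End.eigenspaces_iSupIndep D)
      (TU.diag D hD)
  let b := hint.collectedBasis (fun μ => Module.finBasis ℂ (End.eigenspace D μ))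
  let _ : Fintype ((μ : ℂ) × Fin (finrank ℂ (End.eigenspace D μ))) :=
    FiniteDimensional.fintypeBasisIndex b
  have hb : ∀ i, D (b i) = i.1 • b i := fun i =>
    End.mem_eigenspace_iff.1 (hint.collectedBasis_mem _ i)
  refine ⟨_, inferInstance, inferInstance, b, fun i => ?_⟩
  refine hreg _ trivial ?_
  refine b.ext fun j => ?_
  have h1 : ∀ j, Matrix.toLin b b (Matrix.single i i 1) (b j) = if i = j then b i else 0 := by
    intro j
    rw [Matrix.toLin_self]
    by_cases h : i = j
    · subst h
      rw [if_pos rfl, Finset.sum_eq_single i]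
      · simp [Matrix.single]
      · intro c _ hc
        simp [Matrix.single, Ne.symm hc]
      · intro h
        exact absurd (Finset.mem_univ i) h
    · rw [if_neg h]
      refine Finset.sum_eq_zero fun c _ => ?_
      simp [Matrix.single, h]
  rw [Module.End.mul_apply, Module.End.mul_apply, hb, map_smul, h1]
  by_cases h : i = j
  · subst h
    rw [if_pos rfl, hb]
  · rw [if_neg h, map_zero, smul_zero]

theorem adE_ker {A X : End ℂ V} (hA : ⨆ μ, End.eigenspace A μ = ⊤)
    (h : Y114.RM.adE A (Y114.RM.adE A X) = 0) : Y114.RM.adE A X = 0 := by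
  have h1 : X ∈ (Y114.RM.adE A).maxGenEigenspace 0 := by
    rw [Module.End.mem_maxGenEigenspace]
    refine ⟨2, ?_⟩
    rw [zero_smul, sub_zero, pow_two, Module.End.mul_apply, h]
  rw [(adE_semisimple hA).isFinitelySemisimple.maxGenEigenspace_eq_eigenspace,
    Module.End.mem_eigenspace_iff, zero_smul] at h1
  exact h1

/-- **Ideals of type A.**  A reductive subalgebra of maximal rank whose centre is central in `G`
contains all ideals of type A of `G`. -/
theorem Factor.le (F : Factor G ψ) (TG : Tor G t) (TL : Tor L t) (hLG : L ≤ G)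
    (hcen : ∀ z ∈ L, (∀ X ∈ L, z * X = X * z) → ∀ X ∈ G, z * X = X * z) (x : End ℂ U) :
    ψ x ∈ L := by
  classical
  obtain ⟨κ, _, _, b, hb⟩ := F.exists_basis TG
  set S : Submodule ℂ (Matrix κ κ ℂ) :=
    (L.comap ψ).map (LinearMap.toMatrix b b : End ℂ U →ₗ[ℂ] Matrix κ κ ℂ) with hS
  suffices htop : S = ⊤ by
    have h1 : LinearMap.toMatrix b b x ∈ S := by rw [htop]; trivial
    obtain ⟨y, hy, hxy⟩ := h1
    have h2 : y = x := (LinearMap.toMatrix b b).injective hxy
    rw [← h2]
    exact hy
  refine eq_top_of_irr S ?_ ?_ ?_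
  · rintro _ ⟨X, hX, rfl⟩ _ ⟨Y, hY, rfl⟩
    refine ⟨X * Y - Y * X, ?_, ?_⟩
    · show ψ (X * Y - Y * X) ∈ L
      rw [F.bracket]
      exact TL.lie _ hX _ hY
    · show LinearMap.toMatrix b b (X * Y - Y * X) = _
      rw [map_sub, LinearMap.toMatrix_mul, LinearMap.toMatrix_mul]
      rfl
  · intro i
    refine ⟨Matrix.toLin b b (Matrix.single i i 1), TL.le (hb i), ?_⟩
    exact LinearMap.toMatrix_toLin b b _
  · intro W hW
    -- the projection onto the subspace
    set p : Matrix κ κ ℂ := Matrix.diagonal fun i => if i ∈ W then 1 else 0 with hp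
    set π : End ℂ U := Matrix.toLin b b p with hπ
    have hpsum : p = ∑ i, (if i ∈ W then (1 : ℂ) else 0) • Matrix.single i i (1 : ℂ) := by
      rw [hp, ← Matrix.sum_single_eq_diagonal]
      refine Finset.sum_congr rfl fun i _ => ?_
      rw [Matrix.smul_single, smul_eq_mul, mul_one]
    have hA : ψ π ∈ t := by
      rw [hπ, hpsum, map_sum, map_sum]
      refine Submodule.sum_mem _ fun i _ => ?_
      rw [map_smul, map_smul]
      exact t.smul_mem _ (hb i)
    have hmat : ∀ (X : End ℂ U) (i j : κ), LinearMap.toMatrix b b (π * X - X * π) i j =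
        ((if i ∈ W then 1 else 0) - (if j ∈ W then 1 else 0)) * LinearMap.toMatrix b b X i j := by
      intro X i j
      rw [map_sub, LinearMap.toMatrix_mul, LinearMap.toMatrix_mul, Matrix.sub_apply, hπ,
        LinearMap.toMatrix_toLin, hp, Matrix.diagonal_mul, Matrix.mul_diagonal]
      ring
    have hstab : ∀ X : End ℂ U, ψ X ∈ L → ∀ i, i ∉ W → ∀ j ∈ W,
        LinearMap.toMatrix b b X i j = 0 := fun X hX i hi j hj => hW _ ⟨X, hX, rfl⟩ i hi j hj
    have hbrack : ∀ X ∈ L, ∃ z, Y114.RM.adE (ψ π) X = ψ (π * z - z * π) := by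
      intro X hX
      obtain ⟨z, hz⟩ := F.split X (hLG hX)
      refine ⟨z, ?_⟩
      rw [F.bracket, adE_apply]
      have h1 := hz π
      calc ψ π * X - X * ψ π = (ψ π * ψ z - ψ z * ψ π) +
          (ψ π * (X - ψ z) - (X - ψ z) * ψ π) := by noncomm_ring
        _ = ψ π * ψ z - ψ z * ψ π := by rw [h1, sub_self, add_zero]
    have htr : ∀ y z : End ℂ U, ψ (y * z - z * y) = 0 → y * z - z * y = 0 := fun y z h =>
      F.zero_of h
    -- no elements of weight minus one
    have hB : ∀ Z ∈ L, Y114.RM.adE (ψ π) Z = -Z → Z = 0 := by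
      intro Z hZ hAZ
      obtain ⟨z, hz⟩ := hbrack Z hZ
      have hZy : Z = ψ (z * π - π * z) := by
        have h1 : Z = -ψ (π * z - z * π) := by rw [← hz, hAZ, neg_neg]
        rw [h1, ← map_neg]
        congr 1
        abel
      set y := z * π - π * z with hy
      have h1 : π * y - y * π + y = 0 := by
        have h2 : ψ (π * y - y * π + y) = 0 := by
          rw [map_add, F.bracket, ← hZy, ← adE_apply, hAZ, neg_add_cancel]
        obtain ⟨c, hc⟩ := F.ker _ h2
        have h3 : LinearMap.trace ℂ U (c • (1 : End ℂ U)) = 0 := by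
          rw [← hc, map_add, trace_lie_zero, hy, trace_lie_zero, add_zero]
        rw [map_smul, LinearMap.trace_one, smul_eq_mul, mul_eq_zero] at h3
        rcases h3 with h3 | h3
        · rw [hc, h3, zero_smul]
        · have h4 : Module.finrank ℂ U = 0 := by exact_mod_cast h3
          have h5 : Subsingleton U := Module.finrank_zero_iff.1 h4
          exact LinearMap.ext fun u => Subsingleton.elim _ _
      have hyL : ψ y ∈ L := by rw [← hZy]; exact hZ
      have h2 : y = 0 := by
        apply (LinearMap.toMatrix b b).injective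
        rw [map_zero]
        ext i j
        have h3 := hmat y i j
        have h4 : π * y - y * π = -y := eq_neg_of_add_eq_zero_left h1
        rw [h4, map_neg, Matrix.neg_apply] at h3
        rw [Matrix.zero_apply]
        by_cases hi : i ∈ W <;> by_cases hj : j ∈ W
        · rw [if_pos hi, if_pos hj, sub_self, zero_mul, neg_eq_zero] at h3
          exact h3
        · rw [if_pos hi, if_neg hj, sub_zero, one_mul] at h3
          have h5 : (2 : ℂ) * LinearMap.toMatrix b b y i j = 0 := by linear_combination -h3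
          exact (mul_eq_zero.1 h5).resolve_left two_ne_zero
        · exact hstab y hyL i hi j hj
        · rw [if_neg hi, if_neg hj, sub_self, zero_mul, neg_eq_zero] at h3
          exact h3
      rw [hZy, h2, map_zero]
    -- no elements of weight one
    have hC : ∀ Z ∈ L, Y114.RM.adE (ψ π) Z = Z → Z = 0 := by
      let S1 : Submodule ℂ (End ℂ V) :=
        { carrier := {Z | Z ∈ L ∧ Y114.RM.adE (ψ π) Z = Z}
          add_mem' := by
            rintro a b ⟨ha, ha'⟩ ⟨hb, hb'⟩
            exact ⟨L.add_mem ha hb, by rw [map_add, ha', hb']⟩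
          zero_mem' := ⟨L.zero_mem, map_zero _⟩
          smul_mem' := by
            rintro c a ⟨ha, ha'⟩
            exact ⟨L.smul_mem c ha, by rw [map_smul, ha']⟩ }
      intro Z hZ hAZ
      refine wt_induction t TL.diag TL.comm S1 ?_ (P := fun Z => Z = 0) rfl ?_ ?_ Z ⟨hZ, hAZ⟩
      · rintro a ha X ⟨hX, hX'⟩
        refine ⟨TL.lie a (TL.le ha) X hX, ?_⟩
        have h1 := congrArg (fun T => T X) (adE_comm (ψ π) a)
        rw [TL.comm _ hA _ ha, sub_self] at h1
        have h2 : Y114.RM.adE (ψ π) (Y114.RM.adE a X) = Y114.RM.adE a (Y114.RM.adE (ψ π) X) := by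
          rw [LinearMap.sub_apply, Module.End.mul_apply, Module.End.mul_apply,
            adE_apply (0 : End ℂ V), zero_mul, mul_zero, sub_self] at h1
          exact sub_eq_zero.1 h1
        rw [hX'] at h2
        exact h2
      · intro X Y _ _ hX hY
        have hX' : X = 0 := hX
        have hY' : Y = 0 := hY
        show X + Y = 0
        rw [hX', hY', add_zero]
      · rintro χ X ⟨hX, hX'⟩ hw
        by_contra hX0
        have h1 : χ ⟨ψ π, hA⟩ = 1 := by
          have h2 := hw ⟨ψ π, hA⟩
          rw [adE_apply] at hX'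
          change ψ π * X - X * ψ π = _ at h2
          rw [hX'] at h2
          have h3 : (χ ⟨ψ π, hA⟩ - 1) • X = 0 := by rw [sub_smul, one_smul, ← h2, sub_self]
          exact sub_eq_zero.1 ((smul_eq_zero.1 h3).resolve_right hX0)
        obtain ⟨f, hf, hfw, hff⟩ := TL.exists_dual hX hw hX0
        apply hff
        rw [hB f hf, mul_zero, map_zero]
        have h2 := hfw ⟨ψ π, hA⟩
        rw [h1, neg_one_smul] at h2
        exact h2
    have hD : ∀ X, ψ X ∈ L → π * X - X * π = 0 := by
      intro X hX
      apply F.zero_of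
      have h1 : π * (π * X - X * π) - (π * X - X * π) * π = π * X - X * π := by
        apply (LinearMap.toMatrix b b).injective
        ext i j
        rw [hmat, hmat]
        by_cases hi : i ∈ W <;> by_cases hj : j ∈ W
        · rw [if_pos hi, if_pos hj]; ring
        · rw [if_pos hi, if_neg hj]; ring
        · rw [hstab X hX i hi j hj]; ring
        · rw [if_neg hi, if_neg hj]; ring
      refine hC _ ?_ ?_
      · rw [F.bracket]
        exact TL.lie _ (TL.le hA) _ hX
      · rw [← F.adE, adE_apply, h1]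
    have hE : ∀ X ∈ L, ψ π * X = X * ψ π := by
      intro X hX
      rw [← sub_eq_zero, ← adE_apply]
      apply adE_ker (TL.diag _ hA)
      obtain ⟨z, hz⟩ := hbrack X hX
      have h1 : ψ (π * z - z * π) ∈ L := by
        rw [← hz]
        exact TL.lie _ (TL.le hA) _ hX
      rw [hz, ← F.adE, adE_apply, hD _ h1, map_zero]
    have hG := hcen (ψ π) (TL.le hA) hE
    obtain ⟨c, hc⟩ := scalar_of_central (x := π) fun y => by
      rw [← sub_eq_zero]
      apply F.zero_of
      rw [F.bracket, hG _ (F.mem y), sub_self]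
    have hpc : ∀ i, (if i ∈ W then (1 : ℂ) else 0) = c := by
      intro i
      have h1 : p = c • 1 := by
        have h2 : LinearMap.toMatrix b b π = p := LinearMap.toMatrix_toLin b b p
        rw [← h2, hc, map_smul, LinearMap.toMatrix_one]
      have h3 := congrFun (congrFun h1 i) i
      rw [hp, Matrix.diagonal_apply_eq, Matrix.smul_apply, Matrix.one_apply_eq, smul_eq_mul,
        mul_one] at h3
      exact h3
    by_cases h : ∃ i, i ∈ W
    · right
      obtain ⟨i, hi⟩ := h
      rw [Set.eq_univ_iff_forall]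
      intro j
      by_contra hj
      have h1 := (hpc i).trans (hpc j).symm
      rw [if_pos hi, if_neg hj] at h1
      exact one_ne_zero h1
    · left
      rw [Set.eq_empty_iff_forall_notMem]
      exact fun i hi => h ⟨i, hi⟩

end factor

end Pool.Agent.N203.TA
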