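import Pool.Agent.N203.TA.Centre2
import Pool.Agent.N203.TA.TypeA
import Pool.Agent.N203.TA.Defs

/-!
# Type A: the theorem
-/

set_option autoImplicit false
set_option linter.unusedSectionVars false
set_option linter.unusedVariables false

namespace Pool.Agent.N203.TA

open NumberField IsDedekindDomain Module Polynomial TensorProduct Pool.Agent.W569.FM
  Pool.Agent.W571.FM Pool.Agent.Y115.T Pool.Agent.TH118.SG Pool.Agent.Y114.RM
  Pool.Agent.Y114.MU Pool.Agent.Y114.TF Pool.Agent.Y114.GF Pool.Agent.R931.IR Pool.Agent.R931.BD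
  Pool.Agent.N203.RE Pool.Agent.Y212.RM

section factor

variable {V W : Type} [AddCommGroup V] [Module ℂ V] [AddCommGroup W] [Module ℂ W]

theorem conj_mul' (u : V ≃ₗ[ℂ] W) (A B : End ℂ V) : u.conj (A * B) = u.conj A * u.conj B := by
  refine LinearMap.ext fun y => ?_
  rw [Module.End.mul_apply, LinearEquiv.conj_apply_apply, LinearEquiv.conj_apply_apply,
    LinearEquiv.conj_apply_apply, LinearEquiv.symm_apply_apply, Module.End.mul_apply]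

/-- the homomorphism attached to a factor, after transport -/
noncomputable def psi {d : ℕ} (u : V ≃ₗ[ℂ] W) (e : Matrix (Fin d) (Fin d) ℂ →ₗ[ℂ] End ℂ V) :
    End ℂ (Fin d → ℂ) →ₗ[ℂ] End ℂ W :=
  u.conj.toLinearMap ∘ₗ e ∘ₗ (LinearMap.toMatrix' (R := ℂ) (m := Fin d) (n := Fin d)).toLinearMap

theorem psi_apply {d : ℕ} (u : V ≃ₗ[ℂ] W) (e : Matrix (Fin d) (Fin d) ℂ →ₗ[ℂ] End ℂ V)
    (x : End ℂ (Fin d → ℂ)) : psi u e x = u.conj (e (LinearMap.toMatrix' x)) := rfl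

theorem SlFactor.factor {G : Submodule ℂ (End ℂ V)} {d : ℕ}
    {e : Matrix (Fin d) (Fin d) ℂ →ₗ[ℂ] End ℂ V} (h : SlFactor G e) (u : V ≃ₗ[ℂ] W) :
    Factor (G.map u.conj.toLinearMap) (psi u e) where
  bracket x y := by
    rw [psi_apply, map_sub, LinearMap.toMatrix'_mul, LinearMap.toMatrix'_mul, h.bracket, map_sub,
      conj_mul', conj_mul']
    rfl
  one := by
    rw [psi_apply, LinearMap.toMatrix'_one, (h.kernel 1).2 ⟨1, (one_smul _ _).symm⟩, map_zero]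
  ker x hx := by
    rw [psi_apply] at hx
    have h1 : e (LinearMap.toMatrix' x) = 0 := u.conj.injective (hx.trans (map_zero _).symm)
    obtain ⟨c, hc⟩ := (h.kernel _).1 h1
    refine ⟨c, LinearMap.toMatrix'.injective ?_⟩
    rw [hc, map_smul, LinearMap.toMatrix'_one]
  mem x := ⟨_, h.mem _, rfl⟩
  split := by
    rintro _ ⟨X, hX, rfl⟩
    obtain ⟨x, hx⟩ := h.split X hX
    refine ⟨Matrix.toLin' x, fun y => ?_⟩
    have h1 : psi u e (Matrix.toLin' x) = u.conj (e x) := by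
      rw [psi_apply, LinearMap.toMatrix'_toLin']
    have h2 : u.conj.toLinearMap X = u.conj X := rfl
    rw [h1, h2, ← map_sub, psi_apply, ← conj_mul', ← conj_mul', hx]

end factor

section loc

variable {k : Type} [Field k] [CharZero k] [Algebra k ℂ] {V : Type} [AddCommGroup V] [Module k V]
  [FiniteDimensional k V]

theorem central_bc {L G : Submodule k (End k V)}
    (hcen : ∀ z ∈ L, (∀ X ∈ L, X * z = z * X) → ∀ X ∈ G, X * z = z * X) :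
    ∀ z ∈ bcS ℂ L, (∀ X ∈ bcS ℂ L, z * X = X * z) → ∀ X ∈ bcS ℂ G, z * X = X * z := by
  intro z hz hzc X hX
  have h3 : ∀ π : ℂ →ₗ[k] k, ∀ X ∈ G, X * pM π z = pM π z * X := by
    intro π
    refine hcen _ (((inputs.bc k ℂ V L).1 z).1 hz π) fun X hX => ?_
    rw [← pM_bc_mul, ← hzc _ (mem_bcS hX), pM_mul_bc]
  induction hX using Submodule.span_induction with
  | mem X hX =>
    obtain ⟨Z, hZ, rfl⟩ := hX
    rw [← sub_eq_zero]
    refine eq_zero_of_pM inputs.bc fun π => ?_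
    have h4 : (pM π (z * Z.baseChange ℂ - Z.baseChange ℂ * z) : End k V) =
        pM π (z * Z.baseChange ℂ) - pM π (Z.baseChange ℂ * z) := by
      refine LinearMap.ext fun v => ?_
      rw [LinearMap.sub_apply, pM_apply, pM_apply, pM_apply, LinearMap.sub_apply, map_sub]
    rw [h4, pM_bc_mul, pM_mul_bc, h3 π Z hZ, sub_self]
  | zero => rw [zero_mul, mul_zero]
  | add X Y _ _ hX hY => rw [add_mul, mul_add, hX, hY]
  | smul c X _ hX => rw [smul_mul_assoc, mul_smul_comm, hX]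

/-- The part of type A. -/
theorem partA_le_of {L G : Submodule k (End k V)}
    (hLie : IsLie L) (hLG : L ≤ G) (hG : IsLie G) (hndG : NonDeg G) (hndL : NonDeg L)
    {t : Submodule ℂ (End ℂ (ℂ ⊗[k] V))} (htL : t ≤ bcS ℂ L)
    (hdiag : ∀ a ∈ t, ⨆ μ, End.eigenspace a μ = ⊤) (hcomm : ∀ a ∈ t, ∀ b ∈ t, a * b = b * a)
    (hct : ∀ x ∈ bcS ℂ G, (∀ a ∈ t, a * x = x * a) → x ∈ t)
    (hcen : ∀ z ∈ L, (∀ X ∈ L, X * z = z * X) → ∀ X ∈ G, X * z = z * X) :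
    (∀ z ∈ bcS ℂ G, (∀ X ∈ bcS ℂ G, z * X = X * z) → z ∈ bcS ℂ L) ∧
    ∀ (d : ℕ) (ψ : End ℂ (Fin d → ℂ) →ₗ[ℂ] End ℂ (ℂ ⊗[k] V)), Factor (bcS ℂ G) ψ →
      ∀ x, ψ x ∈ bcS ℂ L := by
  have hLC : IsLie (bcS ℂ L) := (inputs.bc k ℂ V L).2.1 hLie
  have hGC : IsLie (bcS ℂ G) := (inputs.bc k ℂ V G).2.1 hG
  have hLGC : bcS ℂ L ≤ bcS ℂ G := bcS_mono hLG
  have hNL : NonDeg (bcS ℂ L) := (inputs.bc k ℂ V L).2.2.1 hndL
  have hNG : NonDeg (bcS ℂ G) := (inputs.bc k ℂ V G).2.2.1 hndG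
  have TG : Tor (bcS ℂ G) t := ⟨hGC, hNG, htL.trans hLGC, hdiag, hcomm, hct⟩
  have TL : Tor (bcS ℂ L) t := ⟨hLC, hNL, htL, hdiag, hcomm, fun x hx => hct x (hLGC hx)⟩
  refine ⟨fun z hz hzc => htL (hct z hz fun a ha => (hzc a (hLGC (htL ha))).symm), ?_⟩
  intro d ψ F x
  exact F.le TG TL hLGC (central_bc hcen) x

end loc

section compare

variable {ι : Type} [Fintype ι] [DecidableEq ι] {n : ι → ℕ} (ℓ : ℕ) [Fact ℓ.Prime]

/-- the comparison of the complexifications -/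
noncomputable def uu [Algebra ℚ_[ℓ] ℂ] :
    ℂ ⊗[ℚ] (Betti n) ≃ₗ[ℂ] ℂ ⊗[ℚ_[ℓ]] (∀ i, Fin (n i) → ℚ_[ℓ]) :=
  (AlgebraTensorModule.cancelBaseChange ℚ ℚ_[ℓ] ℂ ℂ (Betti n)).symm ≪≫ₗ
    LinearEquiv.baseChange ℚ_[ℓ] ℂ _ _ (ee ℓ)

theorem uu_tmul [Algebra ℚ_[ℓ] ℂ] (c : ℂ) (x : Betti n) :
    uu ℓ (c ⊗ₜ[ℚ] x) = c ⊗ₜ[ℚ_[ℓ]] toLadic ℓ x := by
  unfold uu
  rw [LinearEquiv.trans_apply, AlgebraTensorModule.cancelBaseChange_symm_tmul]
  show c ⊗ₜ[ℚ_[ℓ]] ee ℓ ((1 : ℚ_[ℓ]) ⊗ₜ[ℚ] x) = _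
  rw [ee_one]

theorem uu_conj [Algebra ℚ_[ℓ] ℂ] {X : End ℚ (Betti n)}
    {Y : End ℚ_[ℓ] (∀ i, Fin (n i) → ℚ_[ℓ])} (h : Extends X Y) :
    (uu ℓ).conj (X.baseChange ℂ) = Y.baseChange ℂ := by
  have h1 : (uu ℓ).toLinearMap ∘ₗ X.baseChange ℂ = Y.baseChange ℂ ∘ₗ (uu ℓ).toLinearMap := by
    refine TensorProduct.AlgebraTensorModule.curry_injective ?_
    ext1
    refine LinearMap.ext fun x => ?_
    change uu ℓ (X.baseChange ℂ ((1 : ℂ) ⊗ₜ[ℚ] x)) = Y.baseChange ℂ (uu ℓ ((1 : ℂ) ⊗ₜ[ℚ] x))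
    rw [LinearMap.baseChange_tmul, uu_tmul, uu_tmul, LinearMap.baseChange_tmul, h x]
  refine LinearMap.ext fun y => ?_
  have h2 := LinearMap.congr_fun h1 ((uu ℓ).symm y)
  rw [LinearMap.comp_apply, LinearMap.comp_apply, LinearEquiv.coe_coe,
    LinearEquiv.apply_symm_apply] at h2
  rw [← h2, LinearEquiv.conj_apply_apply]

theorem bcS_scal [Algebra ℚ_[ℓ] ℂ] (𝔤 : Submodule ℚ (End ℚ (Betti n))) :
    bcS ℂ (scal ℓ 𝔤) = (bcS ℂ 𝔤).map (uu (n := n) ℓ).conj.toLinearMap := by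
  apply le_antisymm
  · refine Submodule.span_le.2 ?_
    rintro _ ⟨Y, hY, rfl⟩
    rw [SetLike.mem_coe] at hY ⊢
    induction hY using Submodule.span_induction with
    | mem Y hY =>
      obtain ⟨X, hX, h⟩ := hY
      exact ⟨X.baseChange ℂ, mem_bcS hX, uu_conj ℓ h⟩
    | zero =>
      rw [LinearMap.baseChange_zero]
      exact Submodule.zero_mem _
    | add X Y _ _ hX hY =>
      rw [LinearMap.baseChange_add]
      exact Submodule.add_mem _ hX hY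
    | smul c X _ hX =>
      rw [LinearMap.baseChange_smul]
      rw [algebra_compatible_smul ℂ c]
      exact Submodule.smul_mem _ _ hX
  · rw [Submodule.map_le_iff_le_comap]
    refine Submodule.span_le.2 ?_
    rintro _ ⟨X, hX, rfl⟩
    have h1 : Extends X ((ee ℓ).conj (X.baseChange ℚ_[ℓ])) := (extends_iff ℓ X _).2 rfl
    show (uu ℓ).conj (X.baseChange ℂ) ∈ bcS ℂ (scal ℓ 𝔤)
    rw [uu_conj ℓ h1]
    exact mem_bcS ((mem_scalars ℓ).2 (mem_bcS hX))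

end compare

section main

variable {Γ : Type} [Group Γ] [TopologicalSpace Γ]
  {ι : Type} [Fintype ι] [DecidableEq ι] {n : ι → ℕ} [IsTopologicalGroup Γ] [CompactSpace Γ]

theorem wt_comm {k : Type} [Field k] {V : ι → Type} [∀ i, AddCommGroup (V i)]
    [∀ i, Module k (V i)] {X : End k (∀ i, V i)}
    (hX : ∀ x i, X x i = X (Pi.single i (x i)) i) (w : ι → ℤ) (κ : k) :
    X * (κ • wtOp k V w) = (κ • wtOp k V w) * X := by
  rw [mul_smul_comm, smul_mul_assoc]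
  congr 1
  refine LinearMap.ext fun x => funext fun i => ?_
  rw [Module.End.mul_apply, Module.End.mul_apply, wtOp_apply, hX, wtOp_apply, hX x i]
  have h1 : (Pi.single i ((w i : k) • x i) : ∀ i, V i) = (w i : k) • Pi.single i (x i) := by
    rw [Pi.single_smul]
  rw [h1, map_smul, Pi.smul_apply]

/-- **Type A, at all prime numbers.** -/
theorem main {s : Gal(AlgebraicClosure ℚ/ℚ) →* Γ} {w : ι → ℤ}
    {S : Set (HeightOneSpectrum (𝓞 ℚ))} {P : HeightOneSpectrum (𝓞 ℚ) → ι → Polynomial ℚ}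
    {ρ : ∀ (ℓ : ℕ) [Fact ℓ.Prime], Reps Γ n ℓ} {𝔤 : Submodule ℚ (End ℚ (Betti n))}
    (h : Realizations s w S P ρ 𝔤) (c : ℕ) (hint : IntegralOutside S P c)
    (r : ℕ) (hrank : RatRankLE 𝔤 r) (ℓ₀ : ℕ) [hℓ₀ : Fact ℓ₀.Prime]
    (hgen : FullElementsGenerate s (ρ ℓ₀) r) (ℓ : ℕ) [hℓ : Fact ℓ.Prime] :
    AtPrime w (ρ ℓ) 𝔤 r := by
  obtain ⟨L, alg, t, hss, hLT, hLie, hLG, hND, hrk, -, htL, hdiag, hcomm, hct⟩ :=
    tuple s h.continuous_point w c S h.finite P ℓ₀ (ρ ℓ₀) (h.continuous ℓ₀)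
      (fun v hv hvℓ i => ⟨h.good ℓ₀ v hv hvℓ i, hint v hv i⟩) r hgen.1 ℓ (ρ ℓ) (h.continuous ℓ)
      (h.good ℓ) (scal ℓ 𝔤) (h.motivic ℓ) (rank_scalars ℓ hrank)
  have h𝔤 : IsMotivic (ρ ℓ) (scal ℓ 𝔤) := h.motivic ℓ
  have hL : ∀ X, X ∈ L ↔ X ∈ LT (sumRep (ρ ℓ)) := fun X =>
    ⟨fun hX => mem_LT_of_semisimple (sumRep (ρ ℓ)) hss ((hLT X).1 hX), fun hX => (hLT X).2 hX.2⟩
  -- a place of full rank
  obtain ⟨σ, hσ⟩ := hgen.1
  have hcont : Conts (restrictTo (ρ ℓ₀) s) := fun i => (h.continuous ℓ₀ i).comp h.continuous_point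
  obtain ⟨v₀, hv₀, hind, -⟩ := exists_indep (restrictTo (ρ ℓ₀) s) hcont w c
    (S ∪ {v | Above v ℓ₀} ∪ {v | Above v ℓ})
    ((h.finite.union (finite_above ℓ₀ hℓ₀.out)).union (finite_above ℓ hℓ.out)) P
    (fun v hv i => ⟨h.good ℓ₀ v (fun h => hv (Or.inl (Or.inl h))) (fun h => hv (Or.inl (Or.inr h)))
      i, hint v (fun h => hv (Or.inl (Or.inl h))) i⟩)
    σ r hσ Set.univ isOpen_univ (Set.mem_univ _)
  have hz : ∀ z ∈ L, (∀ X ∈ L, X * z = z * X) →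
      ∃ κ : ℚ_[ℓ], z = κ • wtOp ℚ_[ℓ] (fun i => Fin (n i) → ℚ_[ℓ]) w := by
    intro z hz hzc
    refine central_weight s h.continuous_point w S h.finite P r (h.continuous ℓ) (h.good ℓ) hL hLG
      h𝔤 (rank_scalars ℓ hrank) (fun h => hv₀ (Or.inl (Or.inl h))) (fun h => hv₀ (Or.inr h))
      (independentRoots_range hind) hz hzc fun σ => ?_
    exact central_comm s h.continuous_point w c S h.finite P ℓ₀ (ρ ℓ₀) (h.continuous ℓ₀)
      (fun v hv hvℓ i => ⟨h.good ℓ₀ v hv hvℓ i, hint v hv i⟩) r hgen (h.continuous ℓ) (h.good ℓ) hL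
      hLG h𝔤 (rank_scalars ℓ hrank) hz hzc σ
  have hcen : ∀ z ∈ L, (∀ X ∈ L, X * z = z * X) → ∀ X ∈ scal ℓ 𝔤, X * z = z * X := by
    intro z hzL hzc X hX
    obtain ⟨κ, rfl⟩ := hz z hzL hzc
    exact wt_comm (h𝔤.parts X hX) w κ
  obtain ⟨hA1, hA2⟩ := partA_le_of hLie hLG h𝔤.bracket h𝔤.nondeg hND htL hdiag
    hcomm hct hcen
  have hA : ∀ X ∈ partA 𝔤, (uu ℓ).conj X ∈ bcS ℂ L := by
    intro X hX
    unfold partA at hX
    induction hX using Submodule.span_induction with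
    | mem X hX =>
      rcases hX with ⟨hX, hXc⟩ | ⟨d, e, he, x, rfl⟩
      · refine hA1 _ ?_ ?_
        · rw [bcS_scal]
          exact ⟨X, hX, rfl⟩
        · intro Y hY
          rw [bcS_scal] at hY
          obtain ⟨Z, hZ, rfl⟩ := hY
          show (uu ℓ).conj X * (uu ℓ).conj Z = (uu ℓ).conj Z * (uu ℓ).conj X
          rw [← conj_mul', ← conj_mul', hXc Z hZ]
      · have h1 := he.factor (uu (n := n) ℓ)
        rw [← bcS_scal] at h1
        have h2 := hA2 d _ h1 (Matrix.toLin' x)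
        rwa [psi_apply, LinearMap.toMatrix'_toLin'] at h2
    | zero => rw [map_zero]; exact Submodule.zero_mem _
    | add X Y _ _ hX hY => rw [map_add]; exact Submodule.add_mem _ hX hY
    | smul c X _ hX => rw [map_smul]; exact Submodule.smul_mem _ _ hX
  have hB : ∀ 𝔞 ≤ 𝔤, bcS ℂ 𝔞 ≤ partA 𝔤 → scal ℓ 𝔞 ≤ L := by
    intro 𝔞 h𝔞 hle
    refine Submodule.span_le.2 ?_
    rintro Y ⟨X, hX, hXY⟩
    obtain ⟨π, hπ⟩ := exists_pi ℚ_[ℓ] ℂ
    have h1 := hA _ (hle (mem_bcS hX))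
    rw [uu_conj ℓ hXY] at h1
    have h2 := ((inputs.bc ℚ_[ℓ] ℂ _ L).1 _).1 h1 π
    rwa [pM_bc π hπ] at h2
  refine ⟨hss, ⟨L, hLT, ⟨hLie, hND, hrk, hLG⟩, ?_, fun 𝔞 h1 h2 => hB 𝔞 h1 h2⟩, fun hT => ?_⟩
  · rintro z ⟨hzL, hzc⟩
    obtain ⟨κ, rfl⟩ := hz z hzL fun X hX => (hzc X hX).symm
    refine ⟨κ, fun x i => ?_⟩
    rw [LinearMap.smul_apply, Pi.smul_apply, wtOp_apply, smul_smul]
  · have hfull : L = scal ℓ 𝔤 := le_antisymm hLG (hB 𝔤 le_rfl hT)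
    intro m φ
    exact ⟨fun hφ X hX => (hLT X).1 (hfull ▸ hX) m φ hφ, IsMotivic.tate h𝔤 m φ⟩

end main

end Pool.Agent.N203.TA
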