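import Pool.Agent.N203.TA.Value
import Pool.Agent.R931.GD.Ram
import Pool.Agent.N203.RE.Main

/-!
# The centre of the Lie algebra of the Tate tensors
-/

set_option autoImplicit false
set_option linter.unusedSectionVars false
set_option linter.unusedVariables false

namespace Pool.Agent.N203.TA

open NumberField IsDedekindDomain Module Polynomial TensorProduct Pool.Agent.W569.FM
  Pool.Agent.W571.FM Pool.Agent.Y115.T Pool.Agent.TH118.SG Pool.Agent.Y114.RM
  Pool.Agent.Y114.MU Pool.Agent.Y114.TF Pool.Agent.Y114.GF Pool.Agent.R931.IR Pool.Agent.R931.BD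

section weight

variable {k : Type} [Field k] {ι : Type} [Fintype ι] [DecidableEq ι] {V : ι → Type}
  [∀ i, AddCommGroup (V i)] [∀ i, Module k (V i)]

/-- the endomorphism which multiplies the `i`-th summand by `w i` -/
def wtOp (k : Type) [Field k] {ι : Type} (V : ι → Type) [∀ i, AddCommGroup (V i)]
    [∀ i, Module k (V i)] (w : ι → ℤ) : End k (∀ i, V i) :=
  LinearMap.pi fun i => (w i : k) • LinearMap.proj i

theorem wtOp_apply (w : ι → ℤ) (x : ∀ i, V i) (i : ι) : wtOp k V w x i = (w i : k) • x i := rfl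

theorem sum_single_proj : (∑ i, LinearMap.single k V i ∘ₗ LinearMap.proj i) =
    (1 : End k (∀ i, V i)) := by
  refine LinearMap.ext fun x => funext fun j => ?_
  rw [LinearMap.sum_apply, Finset.sum_apply, Finset.sum_eq_single j]
  · rw [LinearMap.comp_apply, LinearMap.proj_apply, LinearMap.single_apply, Pi.single_eq_same]
    rfl
  · intro i _ hij
    rw [LinearMap.comp_apply, LinearMap.proj_apply, LinearMap.single_apply,
      Pi.single_eq_of_ne hij.symm]
  · intro h
    exact absurd (Finset.mem_univ j) h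

theorem comp_ext [Algebra k ℂ] {x y : ℂ ⊗[k] (∀ i, V i)}
    (h : ∀ i, (LinearMap.proj (R := k) (φ := V) i).baseChange ℂ x =
      (LinearMap.proj (R := k) (φ := V) i).baseChange ℂ y) : x = y := by
  have key : ∀ z : ℂ ⊗[k] (∀ i, V i), z = ∑ i, (LinearMap.single k V i).baseChange ℂ
      ((LinearMap.proj (R := k) (φ := V) i).baseChange ℂ z) := by
    intro z
    have h1 : (1 : End k (∀ i, V i)).baseChange ℂ z = z := by
      rw [bc_one]
      rfl
    conv_lhs => rw [← h1, ← sum_single_proj]
    have h2 : (∑ i, LinearMap.single k V i ∘ₗ LinearMap.proj i : End k (∀ i, V i)).baseChange ℂ =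
        ∑ i, (LinearMap.single k V i ∘ₗ LinearMap.proj i : End k (∀ i, V i)).baseChange ℂ :=
      map_sum (LinearMap.baseChangeHom k ℂ (∀ i, V i) (∀ i, V i)) _ _
    rw [h2, LinearMap.sum_apply]
    refine Finset.sum_congr rfl fun i _ => ?_
    rw [LinearMap.baseChange_comp, LinearMap.comp_apply]
  rw [key x, key y]
  exact Finset.sum_congr rfl fun i _ => by rw [h i]

theorem trace_wtOp [∀ i, FiniteDimensional k (V i)] (u : ι → ℤ) :
    LinearMap.trace k _ (wtOp k V u) = ∑ i, (u i : k) * finrank k (V i) := by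
  have h1 : wtOp k V u = ∑ i, (u i : k) • (LinearMap.single k V i ∘ₗ LinearMap.proj i) := by
    refine LinearMap.ext fun x => funext fun j => ?_
    rw [LinearMap.sum_apply, Finset.sum_apply, Finset.sum_eq_single j, wtOp_apply]
    · rw [LinearMap.smul_apply, Pi.smul_apply, LinearMap.comp_apply, LinearMap.proj_apply,
        LinearMap.single_apply, Pi.single_eq_same]
    · intro i _ hij
      rw [LinearMap.smul_apply, Pi.smul_apply, LinearMap.comp_apply, LinearMap.proj_apply,
        LinearMap.single_apply, Pi.single_eq_of_ne hij.symm, smul_zero]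
    · intro h
      exact absurd (Finset.mem_univ j) h
  rw [h1, map_sum]
  refine Finset.sum_congr rfl fun i _ => ?_
  rw [map_smul, smul_eq_mul]
  congr 1
  rw [LinearMap.trace_comp_comm' (LinearMap.proj i) (LinearMap.single k V i)]
  have h2 : (LinearMap.proj i ∘ₗ LinearMap.single k V i : End k (V i)) = 1 := by
    refine LinearMap.ext fun x => ?_
    rw [LinearMap.comp_apply, LinearMap.proj_apply, LinearMap.single_apply, Pi.single_eq_same]
    rfl
  rw [h2, LinearMap.trace_one]

theorem wtOp_mul (w : ι → ℤ) : wtOp k V w * wtOp k V w = wtOp k V fun i => w i * w i := by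
  refine LinearMap.ext fun x => funext fun i => ?_
  rw [Module.End.mul_apply, wtOp_apply, wtOp_apply, wtOp_apply, smul_smul]
  push_cast
  rfl

theorem wtOp_eq_zero [CharZero k] [∀ i, FiniteDimensional k (V i)] (w : ι → ℤ)
    (h : LinearMap.trace k _ (wtOp k V w * wtOp k V w) = 0) : wtOp k V w = 0 := by
  rw [wtOp_mul, trace_wtOp] at h
  have h1 : ∑ i, (w i * w i) * (finrank k (V i) : ℤ) = 0 := by
    have h2 : ((∑ i, (w i * w i) * (finrank k (V i) : ℤ) : ℤ) : k) = 0 := by
      rw [← h]
      push_cast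
      rfl
    exact_mod_cast h2
  rw [Finset.sum_eq_zero_iff_of_nonneg (fun i _ => mul_nonneg (mul_self_nonneg _)
    (Int.natCast_nonneg _))] at h1
  refine LinearMap.ext fun x => funext fun i => ?_
  rw [wtOp_apply, LinearMap.zero_apply, Pi.zero_apply]
  rcases mul_eq_zero.1 (h1 i (Finset.mem_univ i)) with h2 | h2
  · rw [mul_self_eq_zero.1 h2, Int.cast_zero, zero_smul]
  · have h3 : finrank k (V i) = 0 := by exact_mod_cast h2
    have h4 : Subsingleton (V i) := Module.finrank_zero_iff.1 h3
    exact Subsingleton.elim _ _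

/-- The weight operator is in the torus of a Frobenius element. -/
theorem wt_isOp [CharZero k] [Algebra k ℂ] [∀ i, FiniteDimensional k (V i)] {Γ : Type} [Group Γ]
    (ρ : ∀ i, Representation k Γ (V i)) (γ : Γ) (w : ι → ℤ) {q : ℕ} (hq : 2 ≤ q) (P : ι → ℚ[X])
    (hP : ∀ i, (ρ i γ).charpoly = (P i).map (algebraMap ℚ k))
    (hpure : ∀ i, ∀ a ∈ (P i).aroots ℂ, ‖a‖ ^ 2 = (q : ℝ) ^ w i) :
    IsOp (2 • lgq q) ((sumRep ρ γ).baseChange ℂ) ((wtOp k V w).baseChange ℂ) := by
  intro β x hx
  refine comp_ext fun i => ?_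
  set pr : (∀ i, V i) →ₗ[k] V i := LinearMap.proj i with hpr
  have h1 : pr ∘ₗ wtOp k V w = (w i : k) • pr := by
    refine LinearMap.ext fun y => ?_
    rfl
  have h2 : pr.baseChange ℂ ((wtOp k V w).baseChange ℂ x) = (w i : k) • pr.baseChange ℂ x := by
    rw [← LinearMap.comp_apply, ← LinearMap.baseChange_comp, h1, LinearMap.baseChange_smul]
    rfl
  rw [h2, map_smul]
  by_cases hx0 : pr.baseChange ℂ x = 0
  · rw [hx0, smul_zero, smul_zero]
  have h3 : pr ∘ₗ sumRep ρ γ = ρ i γ ∘ₗ pr := by
    refine LinearMap.ext fun y => ?_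
    rfl
  have h4 : ∀ y, pr.baseChange ℂ ((sumRep ρ γ).baseChange ℂ y) =
      (ρ i γ).baseChange ℂ (pr.baseChange ℂ y) := by
    intro y
    rw [← LinearMap.comp_apply, ← LinearMap.baseChange_comp, h3, LinearMap.baseChange_comp]
    rfl
  have h5 : ∀ (m : ℕ) y, pr.baseChange ℂ
      ((((sumRep ρ γ).baseChange ℂ - algebraMap ℂ _ β) ^ m) y) =
      (((ρ i γ).baseChange ℂ - algebraMap ℂ _ β) ^ m) (pr.baseChange ℂ y) := by
    intro m
    induction m with
    | zero => intro y; rfl
    | succ m ih =>
      intro y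
      rw [pow_succ, Module.End.mul_apply, ih, pow_succ, Module.End.mul_apply,
        LinearMap.sub_apply, map_sub, h4, LinearMap.sub_apply, Module.algebraMap_end_apply,
        Module.algebraMap_end_apply, map_smul]
  have h6 : pr.baseChange ℂ x ∈ Module.End.maxGenEigenspace ((ρ i γ).baseChange ℂ) β := by
    obtain ⟨m, hm⟩ := mem_gen.1 hx
    refine mem_gen.2 ⟨m, ?_⟩
    rw [← h5, hm, map_zero]
  have h7 : Module.End.HasEigenvalue ((ρ i γ).baseChange ℂ) β := by
    have h8 : Module.End.HasUnifEigenvalue ((ρ i γ).baseChange ℂ) β ⊤ := by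
      intro h9
      have h10 : pr.baseChange ℂ x ∈ Module.End.genEigenspace ((ρ i γ).baseChange ℂ) β ⊤ := h6
      rw [h9, Submodule.mem_bot] at h10
      exact hx0 h10
    exact h8.lt zero_lt_one
  have h8 : β ∈ (P i).aroots ℂ := by
    rw [Module.End.hasEigenvalue_iff_isRoot_charpoly, LinearMap.charpoly_baseChange, hP,
      Polynomial.map_map] at h7
    have h9 : P i ≠ 0 := by
      intro h10
      have h11 := LinearMap.charpoly_monic (ρ i γ)
      rw [hP, h10, Polynomial.map_zero] at h11
      exact not_monic_zero h11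
    rw [mem_aroots]
    refine ⟨h9, ?_⟩
    rw [IsRoot.def, eval_map] at h7
    rw [aeval_def, ← h7]
    congr 1
    exact Subsingleton.elim _ _
  have hβ := hpure i β h8
  have hq1 : (1 : ℝ) < q := by exact_mod_cast hq
  have hlogq : Real.log q ≠ 0 := (Real.log_pos hq1).ne'
  have hβ0 : β ≠ 0 := by
    rintro rfl
    rw [norm_zero, zero_pow two_ne_zero] at hβ
    exact (zpow_pos (by linarith) _).ne hβ
  have h9 : ext0 (2 • lgq q) β = (w i : ℂ) := by
    rw [two_smul, ext0_add, ext0_lgq hβ0]
    have h10 : 2 * Real.log ‖β‖ = w i * Real.log q := by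
      have h11 := congrArg Real.log hβ
      rw [Real.log_pow, Real.log_zpow] at h11
      exact_mod_cast h11
    have h12 : (Real.log ‖β‖ / Real.log q + Real.log ‖β‖ / Real.log q : ℝ) = w i := by
      field_simp
      linarith
    rw [← Complex.ofReal_add, h12]
    simp
  rw [h9, Int.cast_smul_eq_zsmul, Int.cast_smul_eq_zsmul]

end weight

end Pool.Agent.N203.TA
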