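import Pool.Agent.N203.TA.Centre

/-!
# The centre of the Lie algebra of the Tate tensors: the theorem
-/

set_option autoImplicit false
set_option linter.unusedSectionVars false
set_option linter.unusedVariables false

namespace Pool.Agent.N203.TA

open NumberField IsDedekindDomain Module Polynomial TensorProduct Pool.Agent.W569.FM
  Pool.Agent.W571.FM Pool.Agent.Y115.T Pool.Agent.TH118.SG Pool.Agent.Y114.RM
  Pool.Agent.Y114.MU Pool.Agent.Y114.TF Pool.Agent.Y114.GF Pool.Agent.R931.IR Pool.Agent.R931.BD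

section comm

variable {k : Type} [Field k] [CharZero k] [Algebra k ℂ] {V : Type} [AddCommGroup V] [Module k V]
  [FiniteDimensional k V]

theorem op_commute {W : Type} [AddCommGroup W] [Module ℂ W] [FiniteDimensional ℂ W]
    {g Z : End ℂ W} (hZ : Z ∈ tor g) : Z * g = g * Z := by
  obtain ⟨θ, hθ⟩ := hZ
  refine op_ext g fun β x hx => ?_
  have h1 : g x ∈ g.maxGenEigenspace β :=
    g.mapsTo_maxGenEigenspace_of_comm (Commute.refl g) β hx
  rw [Module.End.mul_apply, Module.End.mul_apply, hθ β x hx, hθ β _ h1, map_smul]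

theorem comm_of_tor {z g : End k V} (hz : z.baseChange ℂ ∈ tor (g.baseChange ℂ)) :
    z * g = g * z := by
  have h1 := op_commute hz
  rw [← bc_mul, ← bc_mul] at h1
  exact bc_inj h1

end comm

section main

variable {Γ : Type} [Group Γ] {ι : Type} [Fintype ι] [DecidableEq ι] {n : ι → ℕ}
  {ℓ : ℕ} [hℓ : Fact ℓ.Prime] {ρ : Reps Γ n ℓ}
  {L : Submodule ℚ_[ℓ] (End ℚ_[ℓ] (∀ i, Fin (n i) → ℚ_[ℓ]))}
  {𝔤 : Submodule ℚ_[ℓ] (End ℚ_[ℓ] (∀ i, Fin (n i) → ℚ_[ℓ]))}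

/-- Central elements are in the torus of every group element of maximal rank. -/
theorem tor_mem [Algebra ℚ_[ℓ] ℂ] (hL : ∀ X, X ∈ L ↔ X ∈ LT (sumRep ρ)) (hLG : L ≤ 𝔤)
    (h𝔤 : IsMotivic ρ 𝔤) {r : ℕ} (hrk : RankAtMost 𝔤 r) (γ : Γ) {P : ι → ℚ[X]}
    (hP : ∀ i, (ρ i γ).charpoly = (P i).map (algebraMap ℚ ℚ_[ℓ])) (hind : IndependentRoots r P)
    {z : End ℚ_[ℓ] (∀ i, Fin (n i) → ℚ_[ℓ])} (hz : z ∈ L) (hzc : ∀ X ∈ L, X * z = z * X) :
    z.baseChange ℂ ∈ tor ((sumRep ρ γ).baseChange ℂ) := by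
  obtain ⟨ζ, hζ, hind⟩ := hind
  have hζ' : ∀ i, End.HasEigenvalue ((sumRep ρ γ).baseChange ℂ) (ζ i) := by
    intro i
    obtain ⟨a, ha⟩ := hζ i
    exact sumRep_eigen ρ γ (hP a) ha
  refine torus_cen (sumRep ρ) inputs inputs2.jord inputs2.cartan hL hLG h𝔤.bracket h𝔤.nondeg
    h𝔤.algebraic hrk γ ζ hζ' hind _ (mem_bcS (hLG hz)) fun a ha => ?_
  exact bcS_comm hzc a (tor_le (sumRep ρ) inputs hL γ ha)

theorem sumRep_cont [TopologicalSpace Γ] (hρ : Conts ρ) (x : ∀ i, Fin (n i) → ℚ_[ℓ]) :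
    Continuous fun γ => sumRep ρ γ x := by
  refine continuous_pi fun i => ?_
  have h1 : (fun γ => sumRep ρ γ x i) = fun γ => (LinearMap.toMatrix' (ρ i γ)).mulVec (x i) := by
    funext γ
    rw [LinearMap.toMatrix'_mulVec]
    rfl
  rw [h1]
  exact (hρ i).matrix_mulVec continuous_const

theorem matrix_cont [TopologicalSpace Γ] (hρ : Conts ρ) {N : ℕ}
    (b : Basis (Fin N) ℚ_[ℓ] (∀ i, Fin (n i) → ℚ_[ℓ])) :
    Continuous fun γ => LinearMap.toMatrix b b (sumRep ρ γ) := by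
  refine continuous_matrix fun i j => ?_
  simp only [LinearMap.toMatrix_apply]
  exact (LinearMap.continuous_of_finiteDimensional (b.coord i)).comp (sumRep_cont hρ (b j))

theorem isOpen_ncomm [TopologicalSpace Γ] (hρ : Conts ρ)
    (z : End ℚ_[ℓ] (∀ i, Fin (n i) → ℚ_[ℓ])) :
    IsClosed {γ | z * sumRep ρ γ = sumRep ρ γ * z} := by
  have h1 : {γ | z * sumRep ρ γ = sumRep ρ γ * z} =
      ⋂ x : ∀ i, Fin (n i) → ℚ_[ℓ], {γ | z (sumRep ρ γ x) = sumRep ρ γ (z x)} := by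
    ext γ
    rw [Set.mem_iInter]
    constructor
    · intro h x
      exact LinearMap.congr_fun h x
    · intro h
      exact LinearMap.ext h
  rw [h1]
  refine isClosed_iInter fun x => ?_
  exact isClosed_eq ((LinearMap.continuous_of_finiteDimensional z).comp (sumRep_cont hρ x))
    (sumRep_cont hρ (z x))

/-- A nonzero rational polynomial kills the Frobenius element. -/
theorem killed {γ : Γ} {P : ι → ℚ[X]}
    (hP : ∀ i, (ρ i γ).charpoly = (P i).map (algebraMap ℚ ℚ_[ℓ])) :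
    ∃ R : ℚ[X], R ≠ 0 ∧ aeval (sumRep ρ γ) (R.map (algebraMap ℚ ℚ_[ℓ])) = 0 := by
  refine ⟨∏ i, P i, Finset.prod_ne_zero_iff.2 fun i _ => ?_, ?_⟩
  · intro h
    have h1 := LinearMap.charpoly_monic (ρ i γ)
    rw [hP, h, Polynomial.map_zero] at h1
    exact not_monic_zero h1
  · have h1 : ∀ (R : ℚ_[ℓ][X]) (x : ∀ i, Fin (n i) → ℚ_[ℓ]) (i : ι),
        aeval (sumRep ρ γ) R x i = aeval (ρ i γ) R (x i) := by
      intro R
      induction R using Polynomial.induction_on' with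
      | add p q hp hq =>
        intro x i
        rw [map_add, map_add, LinearMap.add_apply, LinearMap.add_apply, Pi.add_apply, hp, hq]
      | monomial m a =>
        intro x i
        rw [aeval_monomial, aeval_monomial, Module.End.mul_apply, Module.End.mul_apply,
          Module.algebraMap_end_apply, Module.algebraMap_end_apply, Pi.smul_apply]
        congr 1
        have h2 : ∀ (m : ℕ) (x : ∀ i, Fin (n i) → ℚ_[ℓ]),
            ((sumRep ρ γ) ^ m) x i = ((ρ i γ) ^ m) (x i) := by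
          intro m
          induction m with
          | zero => intro x; rfl
          | succ m ih =>
            intro x
            rw [pow_succ, Module.End.mul_apply, ih, pow_succ, Module.End.mul_apply]
            rfl
        exact h2 m x
    refine LinearMap.ext fun x => funext fun i => ?_
    rw [h1, LinearMap.zero_apply, Pi.zero_apply, ← Finset.mul_prod_erase Finset.univ P
      (Finset.mem_univ i), Polynomial.map_mul, ← hP, mul_comm, map_mul, Module.End.mul_apply,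
      LinearMap.aeval_self_charpoly, LinearMap.zero_apply, map_zero]

end main

section rat

variable {Γ : Type} [Group Γ] [TopologicalSpace Γ] [IsTopologicalGroup Γ]
  {ι : Type} [Fintype ι] [DecidableEq ι] {n : ι → ℕ}
  {ℓ : ℕ} [hℓ : Fact ℓ.Prime]

/-- The elements of the Galois group which have `r` independent eigenvalues generate a dense
subgroup. -/
def Generate {ℓ₀ : ℕ} [Fact ℓ₀.Prime] (s : Gal(AlgebraicClosure ℚ/ℚ) →* Γ) (ρ₀ : Reps Γ n ℓ₀)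
    (r : ℕ) : Prop :=
  (∃ σ, IndependentEigenvalues ρ₀ (s σ) r) ∧
    Dense (Subgroup.closure {σ | IndependentEigenvalues ρ₀ (s σ) r} :
      Set Gal(AlgebraicClosure ℚ/ℚ))

/-- Central elements commute with the Galois group. -/
theorem central_comm (s : Gal(AlgebraicClosure ℚ/ℚ) →* Γ) (hs : Continuous s) (w : ι → ℤ) (c : ℕ)
    (S : Set (HeightOneSpectrum (𝓞 ℚ))) (hS : S.Finite)
    (P : HeightOneSpectrum (𝓞 ℚ) → ι → ℚ[X])
    (ℓ₀ : ℕ) [hℓ₀ : Fact ℓ₀.Prime] (ρ₀ : Reps Γ n ℓ₀) (hρ₀ : Conts ρ₀)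
    (hP₀ : ∀ v ∉ S, ¬ Above v ℓ₀ → ∀ i, GoodReduction (restrictTo ρ₀ s) i (w i) v (P v i) ∧
      IntegralRoots c v (P v i))
    (r : ℕ) (hgen : Generate s ρ₀ r) {ρ : Reps Γ n ℓ} (hρ : Conts ρ)
    (hP : ∀ v ∉ S, ¬ Above v ℓ → ∀ i, GoodReduction (restrictTo ρ s) i (w i) v (P v i))
    [Algebra ℚ_[ℓ] ℂ] {L 𝔤 : Submodule ℚ_[ℓ] (End ℚ_[ℓ] (∀ i, Fin (n i) → ℚ_[ℓ]))}
    (hL : ∀ X, X ∈ L ↔ X ∈ LT (sumRep ρ)) (hLG : L ≤ 𝔤) (h𝔤 : IsMotivic ρ 𝔤)
    (hrk : RankAtMost 𝔤 r) {z : End ℚ_[ℓ] (∀ i, Fin (n i) → ℚ_[ℓ])} (hz : z ∈ L)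
    (hzc : ∀ X ∈ L, X * z = z * X) (σ : Gal(AlgebraicClosure ℚ/ℚ)) :
    z * sumRep ρ (s σ) = sumRep ρ (s σ) * z := by
  have hcl : IsClosed {σ : Gal(AlgebraicClosure ℚ/ℚ) |
      z * sumRep ρ (s σ) = sumRep ρ (s σ) * z} := (isOpen_ncomm hρ z).preimage hs
  have hX : ∀ σ, IndependentEigenvalues ρ₀ (s σ) r →
      z * sumRep ρ (s σ) = sumRep ρ (s σ) * z := by
    intro σ hσ
    by_contra hne
    have hcont : Conts (restrictTo ρ₀ s) := fun i => (hρ₀ i).comp hs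
    obtain ⟨v, hv, hind, Q, φ, hQ, hφ, hφU⟩ := exists_indep (restrictTo ρ₀ s) hcont w c
      (S ∪ {v | Above v ℓ₀} ∪ {v | Above v ℓ})
      ((hS.union (finite_above ℓ₀ hℓ₀.out)).union (finite_above ℓ hℓ.out)) P
      (fun v hv i => hP₀ v (fun h => hv (Or.inl (Or.inl h))) (fun h => hv (Or.inl (Or.inr h))) i)
      σ r hσ _ hcl.isOpen_compl hne
    apply hφU
    show z * sumRep ρ (s φ⁻¹) = sumRep ρ (s φ⁻¹) * z
    refine comm_of_tor (tor_mem hL hLG h𝔤 hrk (s φ⁻¹) (P := P v) (fun i => ?_)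
      (independentRoots_range hind) hz hzc)
    exact ((hP v (fun h => hv (Or.inl (Or.inl h))) (fun h => hv (Or.inr h)) i).2 Q hQ φ).2 hφ
  let H : Subgroup Gal(AlgebraicClosure ℚ/ℚ) :=
    { carrier := {σ | z * sumRep ρ (s σ) = sumRep ρ (s σ) * z}
      mul_mem' := by
        intro a b ha hb
        show z * sumRep ρ (s (a * b)) = sumRep ρ (s (a * b)) * z
        rw [map_mul, map_mul, ← mul_assoc, show z * sumRep ρ (s a) = _ from ha, mul_assoc,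
          show z * sumRep ρ (s b) = _ from hb, mul_assoc]
      one_mem' := by
        show z * sumRep ρ (s 1) = sumRep ρ (s 1) * z
        rw [map_one, map_one, mul_one, one_mul]
      inv_mem' := by
        intro a ha
        show z * sumRep ρ (s a⁻¹) = sumRep ρ (s a⁻¹) * z
        have h1 : sumRep ρ (s a) * sumRep ρ (s a⁻¹) = 1 := by
          rw [← map_mul, ← map_mul, mul_inv_cancel, map_one, map_one]
        have h2 : sumRep ρ (s a⁻¹) * sumRep ρ (s a) = 1 := by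
          rw [← map_mul, ← map_mul, inv_mul_cancel, map_one, map_one]
        calc z * sumRep ρ (s a⁻¹) = (sumRep ρ (s a⁻¹) * sumRep ρ (s a)) * (z * sumRep ρ (s a⁻¹)) := by
              rw [h2, one_mul]
          _ = sumRep ρ (s a⁻¹) * (sumRep ρ (s a) * z) * sumRep ρ (s a⁻¹) := by noncomm_ring
          _ = sumRep ρ (s a⁻¹) * (z * sumRep ρ (s a)) * sumRep ρ (s a⁻¹) := by
              rw [show z * sumRep ρ (s a) = _ from ha]
          _ = (sumRep ρ (s a⁻¹) * z) * (sumRep ρ (s a) * sumRep ρ (s a⁻¹)) := by noncomm_ring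
          _ = sumRep ρ (s a⁻¹) * z := by rw [h1, mul_one] }
  have h1 : Subgroup.closure {σ | IndependentEigenvalues ρ₀ (s σ) r} ≤ H :=
    (Subgroup.closure_le H).2 fun σ hσ => hX σ hσ
  have h2 : (H : Set Gal(AlgebraicClosure ℚ/ℚ)) = Set.univ := by
    have h3 : Dense (H : Set Gal(AlgebraicClosure ℚ/ℚ)) := hgen.2.mono h1
    have h4 : IsClosed (H : Set Gal(AlgebraicClosure ℚ/ℚ)) := hcl
    rw [← h4.closure_eq]
    exact h3.closure_eq
  have h3 : σ ∈ (H : Set Gal(AlgebraicClosure ℚ/ℚ)) := by rw [h2]; trivial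
  exact h3

/-- **The centre consists of multiples of the weight operator.** -/
theorem central_weight (s : Gal(AlgebraicClosure ℚ/ℚ) →* Γ) (hs : Continuous s) (w : ι → ℤ)
    (S : Set (HeightOneSpectrum (𝓞 ℚ))) (hS : S.Finite)
    (P : HeightOneSpectrum (𝓞 ℚ) → ι → ℚ[X]) (r : ℕ) {ρ : Reps Γ n ℓ} (hρ : Conts ρ)
    (hP : ∀ v ∉ S, ¬ Above v ℓ → ∀ i, GoodReduction (restrictTo ρ s) i (w i) v (P v i))
    [Algebra ℚ_[ℓ] ℂ] {L 𝔤 : Submodule ℚ_[ℓ] (End ℚ_[ℓ] (∀ i, Fin (n i) → ℚ_[ℓ]))}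
    (hL : ∀ X, X ∈ L ↔ X ∈ LT (sumRep ρ)) (hLG : L ≤ 𝔤) (h𝔤 : IsMotivic ρ 𝔤)
    (hrk : RankAtMost 𝔤 r) {v₀ : HeightOneSpectrum (𝓞 ℚ)} (hv₀ : v₀ ∉ S) (hv₀ℓ : ¬ Above v₀ ℓ)
    (hind : IndependentRoots r (P v₀)) {z : End ℚ_[ℓ] (∀ i, Fin (n i) → ℚ_[ℓ])} (hz : z ∈ L)
    (hzc : ∀ X ∈ L, X * z = z * X)
    (hcomm : ∀ σ, z * sumRep ρ (s σ) = sumRep ρ (s σ) * z) :
    ∃ κ : ℚ_[ℓ], z = κ • wtOp ℚ_[ℓ] (fun i => Fin (n i) → ℚ_[ℓ]) w := by
  classical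
  set W : End ℚ_[ℓ] (∀ i, Fin (n i) → ℚ_[ℓ]) :=
    wtOp ℚ_[ℓ] (fun i => Fin (n i) → ℚ_[ℓ]) w with hW
  obtain ⟨p, hp, hpv⟩ := exists_prime v₀
  have hpℓ : p ≠ ℓ := by
    rintro rfl
    exact hv₀ℓ hpv
  have hqv : q v₀ = p := absNorm_eq hp hpv
  obtain ⟨Q, σ, hQm, hQv, hσ⟩ := frob_cm v₀
  have hσ' : FrobAt p Q σ := by
    rw [← hqv]
    exact hσ
  have hpQ : (p : OO ℚ) ∈ Q := by
    rw [← natCast_mem_cm, hQv]
    exact hpv
  have hPg : ∀ i, (ρ i (s σ⁻¹)).charpoly = (P v₀ i).map (algebraMap ℚ ℚ_[ℓ]) := fun i =>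
    ((hP v₀ hv₀ hv₀ℓ i).2 Q ⟨hQm.isPrime, hQv⟩ σ).2 hσ
  set g : End ℂ (ℂ ⊗[ℚ_[ℓ]] (∀ i, Fin (n i) → ℚ_[ℓ])) := (sumRep ρ (s σ⁻¹)).baseChange ℂ with hg
  have hzt : z.baseChange ℂ ∈ tor g := tor_mem hL hLG h𝔤 hrk (s σ⁻¹) hPg hind hz hzc
  have hq2 : 2 ≤ q v₀ := by rw [hqv]; exact hp.two_le
  have hWop := wt_isOp ρ (s σ⁻¹) w hq2 (P v₀) hPg fun i => (hP v₀ hv₀ hv₀ℓ i).1
  have hWt : W.baseChange ℂ ∈ tor g := ⟨_, hWop⟩
  -- the primes
  let T : Set ℕ := {p | p.Prime ∧ p ≠ ℓ ∧ ∀ v, Above v p → v ∉ S}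
  have hTinf : T.Infinite := by
    have h1 : ({p : ℕ | p.Prime} \ ({ℓ} ∪ {p : ℕ | p.Prime ∧ ∃ v ∈ S, (p : 𝓞 ℚ) ∈ v.asIdeal})).Infinite :=
      Nat.infinite_setOf_prime.sdiff ((Set.finite_singleton ℓ).union (finite_below S hS))
    refine h1.mono ?_
    rintro p ⟨hp, hp'⟩
    exact ⟨hp, fun h => hp' (Or.inl h), fun v hv hvS => hp' (Or.inr ⟨hp, v, hvS, hv⟩)⟩
  let b := Module.finBasis ℚ_[ℓ] (∀ i, Fin (n i) → ℚ_[ℓ])
  let τ : GF ℚ →* End ℚ_[ℓ] (∀ i, Fin (n i) → ℚ_[ℓ]) :=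
    (sumRep ρ : Γ →* End ℚ_[ℓ] (∀ i, Fin (n i) → ℚ_[ℓ])).comp s
  have hτ : Continuous fun γ => LinearMap.toMatrix b b (τ γ) := (matrix_cont hρ b).comp hs
  have hR : ∀ p ∈ T, ∀ (P : Ideal (OO ℚ)) (σ : GF ℚ), P.IsMaximal → (p : OO ℚ) ∈ P →
      FrobAt p P σ → ∃ R : ℚ[X], R ≠ 0 ∧ aeval (τ σ⁻¹) (R.map (algebraMap ℚ ℚ_[ℓ])) = 0 := by
    intro p hp Q' σ' hQ' hpQ' hσ'
    have hp0 : (p : 𝓞 ℚ) ∈ cm Q' := natCast_mem_cm.2 hpQ'
    let v : HeightOneSpectrum (𝓞 ℚ) := ⟨cm Q', hQ'.isPrime.comap _, fun hbot => by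
      rw [hbot, Ideal.mem_bot] at hp0
      exact hp.1.ne_zero (by exact_mod_cast hp0)⟩
    have hv : cm Q' = v.asIdeal := rfl
    have hvp : Above v p := hp0
    refine killed (ρ := ρ) (γ := s σ'⁻¹) (P := P v) fun i => ?_
    exact ((hP v (hp.2.2 v hvp) (notAbove_of_ne hp.1 hℓ.out hp.2.1 hvp) i).2 Q'
      ⟨hQ'.isPrime, hv⟩ σ').2 (by
        have h1 : q v = p := absNorm_eq hp.1 hvp
        rw [h1]
        exact hσ')
  have key : ∀ c : End ℚ_[ℓ] (∀ i, Fin (n i) → ℚ_[ℓ]), c.baseChange ℂ ∈ tor g →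
      (∀ σ, c * sumRep ρ (s σ) = sumRep ρ (s σ) * c) →
      ∃ κ : ℂ, ∀ (θ : Additive ℂˣ →+ ℂ) (Y : End ℂ _), IsOp θ g Y →
        LinearMap.trace ℂ _ (c.baseChange ℂ * Y) = κ * ext0 θ p := fun c hc hcc =>
    trace_value inputs.tr b τ hτ c (tor_diag _ _ hc) (fun γ => hcc γ) T hTinf
      (fun p hp => ⟨hp.1, hp.2.1⟩) hR p hp hpℓ Q σ hQm hpQ hσ'
  obtain ⟨κ₁, h₁⟩ := key z hzt hcomm
  obtain ⟨κ₂, h₂⟩ := key W hWt (by
    intro σ
    refine LinearMap.ext fun x => funext fun i => ?_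
    show (w i : ℚ_[ℓ]) • (ρ i (s σ)) (x i) = (ρ i (s σ)) ((w i : ℚ_[ℓ]) • x i)
    rw [map_smul])
  have hZ : (κ₂ • z.baseChange ℂ - κ₁ • W.baseChange ℂ) = 0 := by
    refine tor_nondeg g (Submodule.sub_mem _ (Submodule.smul_mem _ _ hzt)
      (Submodule.smul_mem _ _ hWt)) ?_
    rintro Y ⟨θ, hY⟩
    rw [sub_mul, map_sub, smul_mul_assoc, smul_mul_assoc, map_smul, map_smul, h₁ θ Y hY,
      h₂ θ Y hY, smul_eq_mul, smul_eq_mul]
    ring
  obtain ⟨π, hπ⟩ := exists_pi ℚ_[ℓ] ℂ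
  by_cases hκ : κ₂ = 0
  · have hp0 : (p : ℂ) ≠ 0 := Nat.cast_ne_zero.2 hp.ne_zero
    have hlog : ext0 (2 • lgq (q v₀)) (p : ℂ) = 2 := by
      rw [two_smul, ext0_add, ext0_lgq hp0, hqv, Complex.norm_natCast]
      have h3 : Real.log p ≠ 0 := (Real.log_pos (by exact_mod_cast hp.one_lt)).ne'
      rw [div_self h3]
      norm_num
    have hW0 : W = 0 := by
      apply wtOp_eq_zero
      have h3 := h₂ _ _ hWop
      rw [hκ, zero_mul, ← bc_mul, LinearMap.trace_baseChange] at h3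
      exact (map_eq_zero_iff _ (algebraMap ℚ_[ℓ] ℂ).injective).1 h3
    have h4 := h₁ _ _ hWop
    have h5 : (wtOp ℚ_[ℓ] (fun i => Fin (n i) → ℚ_[ℓ]) w).baseChange ℂ = 0 := by
      rw [← hW, hW0]
      exact LinearMap.baseChange_zero
    rw [h5, mul_zero, map_zero, hlog] at h4
    have h6 : κ₁ = 0 := (mul_eq_zero.1 h4.symm).resolve_right two_ne_zero
    have h7 : z.baseChange ℂ = 0 := tor_nondeg g hzt (by
      rintro Y ⟨θ, hY⟩
      rw [h₁ θ Y hY, h6, zero_mul])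
    refine ⟨0, ?_⟩
    rw [zero_smul]
    exact bc_inj (h7.trans LinearMap.baseChange_zero.symm)
  · refine ⟨π (κ₁ / κ₂), ?_⟩
    have h3 : z.baseChange ℂ = (κ₁ / κ₂) • W.baseChange ℂ := by
      rw [sub_eq_zero] at hZ
      rw [div_eq_inv_mul, mul_smul, ← hZ, smul_smul, inv_mul_cancel₀ hκ, one_smul]
    refine LinearMap.ext fun x => ?_
    have h4 : pM π (z.baseChange ℂ) x = pM π ((κ₁ / κ₂) • W.baseChange ℂ) x := by rw [h3]
    rw [pM_bc π hπ, pM_apply, LinearMap.smul_apply, LinearMap.baseChange_tmul,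
      TensorProduct.smul_tmul', pv_tmul] at h4
    rw [h4, smul_eq_mul, mul_one]
    rfl

end rat

end Pool.Agent.N203.TA
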