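import Pool.Agent.Y115.CharQ
import Pool.Agent.Y115.Tr4

/-!
# Characters cut out by idempotents which commute with the Galois group
-/

set_option autoImplicit false
set_option linter.unusedSectionVars false

namespace Pool.Agent.N203.TA

open NumberField Module Polynomial Pool.Agent.W569.FM Pool.Agent.Y115.CQ Pool.Agent.Y115.Chi
  Pool.Agent.Y115.T

section alg

variable {K : Type} [Field K] {N : ℕ}

theorem idem_mul {e A B : Matrix (Fin N) (Fin N) K} (he : e * e = e) (hB : B * e = e * B) :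
    (A * e + (1 - e)) * (B * e + (1 - e)) = (A * B) * e + (1 - e) := by
  have h1 : (A * e + (1 - e)) * (B * e + (1 - e)) = A * (e * B) * e + (A * e - A * (e * e)) +
      (B * e - (e * B) * e) + (1 - e - e + e * e) := by noncomm_ring
  rw [h1, ← hB, he, mul_assoc A (B * e) e, mul_assoc B e e, he]
  noncomm_ring

theorem idem_pow {e A : Matrix (Fin N) (Fin N) K} (he : e * e = e) (hA : A * e = e * A) (k : ℕ) :
    (A * e + (1 - e)) ^ k = A ^ k * e + (1 - e) := by
  induction k with
  | zero => rw [pow_zero, pow_zero, one_mul]; abel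
  | succ k ih => rw [pow_succ, ih, idem_mul he hA, pow_succ]

theorem idem_aeval {e A : Matrix (Fin N) (Fin N) K} (he : e * e = e) (hA : A * e = e * A)
    (R : K[X]) : aeval (A * e + (1 - e)) R = aeval A R * e + R.eval 1 • (1 - e) := by
  induction R using Polynomial.induction_on' with
  | add p q hp hq =>
    rw [map_add, map_add, hp, hq, eval_add, add_smul, add_mul]
    abel
  | monomial n a =>
    rw [aeval_monomial, aeval_monomial, idem_pow he hA, eval_monomial, one_pow, mul_one, mul_add,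
      mul_assoc, Algebra.algebraMap_eq_smul_one, smul_mul_assoc, smul_mul_assoc, one_mul, one_mul]

theorem comm_aeval {A M : Matrix (Fin N) (Fin N) K} (h : A * M = M * A) (R : K[X]) :
    A * aeval M R = aeval M R * A := by
  induction R using Polynomial.induction_on' with
  | add p q hp hq => rw [map_add, mul_add, add_mul, hp, hq]
  | monomial n a =>
    have h1 : A * M ^ n = M ^ n * A := (Commute.pow_right (show Commute A M from h) n).eq
    rw [aeval_monomial, Algebra.algebraMap_eq_smul_one, smul_mul_assoc, one_mul, mul_smul_comm,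
      smul_mul_assoc, h1]

end alg

/-- the determinant of a complex matrix killed by a rational polynomial is algebraic -/
theorem det_algebraic {N : ℕ} {A : Matrix (Fin N) (Fin N) ℂ} {R : ℚ[X]} (hR : R ≠ 0)
    (h : aeval A (R.map (algebraMap ℚ ℂ)) = 0) : IsAlgebraic ℚ A.det := by
  rw [Matrix.det_eq_prod_roots_charpoly]
  have key : ∀ β ∈ A.charpoly.roots, IsAlgebraic ℚ β := by
    intro β hβ
    have h1 : Module.End.HasEigenvalue (Matrix.toLin' A) β := by
      rw [Module.End.hasEigenvalue_iff_isRoot_charpoly, Matrix.charpoly_toLin']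
      exact isRoot_of_mem_roots hβ
    obtain ⟨x, hx⟩ := h1.exists_hasEigenvector
    have h2 := Module.End.aeval_apply_of_hasEigenvector (p := R.map (algebraMap ℚ ℂ)) hx
    have h3 : aeval (Matrix.toLin' A) (R.map (algebraMap ℚ ℂ)) = 0 := by
      have h4 : Matrix.toLin' A =
          (Matrix.toLinAlgEquiv' : Matrix (Fin N) (Fin N) ℂ ≃ₐ[ℂ] _).toAlgHom A := rfl
      rw [h4, Polynomial.aeval_algHom_apply, h, map_zero]
    rw [h3, LinearMap.zero_apply] at h2
    have h4 := (smul_eq_zero.1 h2.symm).resolve_right hx.2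
    refine ⟨R, hR, ?_⟩
    rwa [eval_map_algebraMap] at h4
  have h2 : ∀ s : Multiset ℂ, (∀ β ∈ s, IsAlgebraic ℚ β) → IsAlgebraic ℚ s.prod := by
    intro s
    induction s using Multiset.induction_on with
    | empty => intro _; rw [Multiset.prod_zero]; exact isAlgebraic_one
    | cons a s ih =>
      intro hs
      rw [Multiset.prod_cons]
      exact (hs a (Multiset.mem_cons_self a s)).mul
        (ih fun b hb => hs b (Multiset.mem_cons_of_mem hb))
  exact h2 _ key

section char

variable {ℓ : ℕ} [hℓ : Fact ℓ.Prime] (E : IntermediateField ℚ_[ℓ] (PadicAlgCl ℓ))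
  [FiniteDimensional ℚ_[ℓ] E] {N : ℕ}

/-- the matrix with entries in `E` -/
noncomputable def toE (A : Matrix (Fin N) (Fin N) ℚ_[ℓ]) : Matrix (Fin N) (Fin N) E :=
  A.map (algebraMap ℚ_[ℓ] E)

theorem toE_mul (A B : Matrix (Fin N) (Fin N) ℚ_[ℓ]) : toE E (A * B) = toE E A * toE E B :=
  Matrix.map_mul

theorem toE_one : toE E (1 : Matrix (Fin N) (Fin N) ℚ_[ℓ]) = 1 :=
  Matrix.map_one _ (map_zero _) (map_one _)

/-- The determinant on the image of an idempotent which commutes with the Galois group is up to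
finite order a power of the cyclotomic character. -/
theorem char_value (τ : GF ℚ →* Matrix (Fin N) (Fin N) ℚ_[ℓ]) (hτ : Continuous τ)
    (j : E →+* ℂ) (e : Matrix (Fin N) (Fin N) E) (he : e * e = e)
    (hcomm : ∀ γ, toE E (τ γ) * e = e * toE E (τ γ)) (T : Set ℕ) (hT : T.Infinite)
    (hTp : ∀ p ∈ T, p.Prime ∧ p ≠ ℓ)
    (hR : ∀ p ∈ T, ∀ (P : Ideal (OO ℚ)) (σ : GF ℚ), P.IsMaximal → (p : OO ℚ) ∈ P → FrobAt p P σ →
      ∃ R : ℚ[X], R ≠ 0 ∧ aeval (τ σ⁻¹) (R.map (algebraMap ℚ ℚ_[ℓ])) = 0)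
    (p : ℕ) (hp : p.Prime) (hpℓ : p ≠ ℓ) (P : Ideal (OO ℚ)) (σ : GF ℚ) (hP : P.IsMaximal)
    (hpP : (p : OO ℚ) ∈ P) (hσ : FrobAt p P σ) :
    ∃ (M : ℕ) (a : ℤ), 0 < M ∧ (j (toE E (τ σ⁻¹) * e + (1 - e)).det) ^ M = (p : ℂ) ^ a := by
  classical
  have hcompl : CompleteSpace E := FiniteDimensional.complete ℚ_[ℓ] E
  have hultra : IsUltrametricDist E := IsUltrametricDist.of_normedAlgebra ℚ_[ℓ]
  -- the character
  let D : GF ℚ →* Matrix (Fin N) (Fin N) E :=
    { toFun := fun γ => toE E (τ γ) * e + (1 - e)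
      map_one' := by
        show toE E (τ 1) * e + (1 - e) = 1
        rw [map_one, toE_one, one_mul]
        abel
      map_mul' := fun γ δ => by
        show toE E (τ (γ * δ)) * e + (1 - e) =
          (toE E (τ γ) * e + (1 - e)) * (toE E (τ δ) * e + (1 - e))
        rw [idem_mul he (hcomm δ), map_mul, toE_mul] }
  have hD : ∀ γ, D γ = toE E (τ γ) * e + (1 - e) := fun _ => rfl
  let θ : GF ℚ →* Eˣ := (Matrix.detMonoidHom.comp D).toHomUnits
  have hθval : ∀ γ, (θ γ : E) = (toE E (τ γ) * e + (1 - e)).det := fun _ => rfl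
  have hθ1 : Continuous fun γ => (θ γ : E) := by
    simp only [hθval]
    refine Continuous.matrix_det ?_
    refine Continuous.add ?_ continuous_const
    refine Continuous.matrix_mul ?_ continuous_const
    exact hτ.matrix_map (continuous_algebraMap ℚ_[ℓ] E)
  have hθ : Continuous θ := by
    rw [Units.continuous_iff]
    refine ⟨hθ1, ?_⟩
    have h2 : (fun g => (((θ g)⁻¹ : Eˣ) : E)) = fun g => ((θ g⁻¹ : Eˣ) : E) := by
      funext g
      rw [map_inv]
    rw [h2]
    exact hθ1.comp continuous_inv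
  have halg : ∀ p ∈ T, ∀ (P : Ideal (OO ℚ)) (σ : GF ℚ), P.IsMaximal → (p : OO ℚ) ∈ P →
      FrobAt p P σ → IsAlgebraic ℚ (θ σ : E) := by
    intro p hp P σ hP hpP hσ
    obtain ⟨R, hR0, hRk⟩ := hR p hp P σ hP hpP hσ
    have h1 : IsAlgebraic ℚ (θ σ⁻¹ : E) := by
      refine (isAlgebraic_algHom_iff (RingHom.toRatAlgHom j) j.injective).1 ?_
      show IsAlgebraic ℚ (j (θ σ⁻¹ : E))
      rw [hθval, RingHom.map_det]
      have h2 : aeval (toE E (τ σ⁻¹) * e + (1 - e)) ((R * (X - 1)).map (algebraMap ℚ E)) = 0 := by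
        rw [idem_aeval he (hcomm _), Polynomial.map_mul, map_mul, eval_mul]
        have h3 : aeval (toE E (τ σ⁻¹)) (R.map (algebraMap ℚ E)) = 0 := by
          have h4 : aeval (toE E (τ σ⁻¹)) (R.map (algebraMap ℚ E)) =
              (algebraMap ℚ_[ℓ] E).mapMatrix
                (aeval (τ σ⁻¹) (R.map (algebraMap ℚ ℚ_[ℓ]))) := by
            rw [aeval_map_algebraMap, aeval_map_algebraMap]
            have h5 : toE E (τ σ⁻¹) =
              (Algebra.ofId ℚ_[ℓ] E).mapMatrix.restrictScalars ℚ (τ σ⁻¹) := rfl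
            rw [h5, Polynomial.aeval_algHom_apply]
            rfl
          rw [h4, hRk, map_zero]
        rw [h3, zero_mul, zero_mul, Polynomial.map_sub, map_X, Polynomial.map_one, eval_sub,
          eval_X, eval_one, sub_self, mul_zero, zero_smul, add_zero]
      refine det_algebraic (R := R * (X - 1)) (mul_ne_zero hR0 ?_) ?_
      · exact X_sub_C_ne_zero 1
      · have h3 := congrArg j.mapMatrix h2
        rw [map_zero] at h3
        rw [← h3, aeval_map_algebraMap, aeval_map_algebraMap]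
        have h5 : j.mapMatrix (toE E (τ σ⁻¹) * e + (1 - e)) =
          ((RingHom.toRatAlgHom j).mapMatrix : Matrix (Fin N) (Fin N) E →ₐ[ℚ] _)
            (toE E (τ σ⁻¹) * e + (1 - e)) := rfl
        rw [h5, Polynomial.aeval_algHom_apply]
        rfl
    rw [map_inv, Units.val_inv_eq_inv_val] at h1
    exact IsAlgebraic.inv_iff.1 h1
  -- three primes
  obtain ⟨t, htT, ht3⟩ := hT.exists_subset_card_eq 3
  have hchoose : ∀ p : ℕ, p.Prime → ∃ (P : Ideal (OO ℚ)) (σ : GF ℚ), P.IsMaximal ∧
    (p : OO ℚ) ∈ P ∧ FrobAt p P σ := fun p hp => exists_frobQ hp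
  choose P' σ' hP' hpP' hσ' using hchoose
  let eq3 : Fin 3 ≃ t := (finCongr ht3.symm).trans t.equivFin.symm
  have hlT : ∀ i, (eq3 i : ℕ) ∈ T := fun i => htT (eq3 i).2
  obtain ⟨M, a, hM, hMa⟩ := char_main θ hθ (fun i => (eq3 i : ℕ)) (fun i => (hTp _ (hlT i)).1)
    (fun i j hij => eq3.injective (Subtype.ext hij)) (fun i => (hTp _ (hlT i)).2)
    (fun i => P' _ (hTp _ (hlT i)).1) (fun i => (hP' _ _).isPrime) (fun i => hpP' _ _)
    (fun i => σ' _ (hTp _ (hlT i)).1) (fun i => hσ' _ _)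
    (fun i => halg _ (hlT i) _ _ (hP' _ _) (hpP' _ _) (hσ' _ _))
  refine ⟨M, -a, hM, ?_⟩
  have h1 := hMa σ⁻¹
  have h2 : (chiE ℓ E σ : E) = (p : E) := by
    rw [coe_chiE, chi_frob hP.isPrime (not_mem_of_ne hp hpℓ hP.ne_top hpP) hσ]
    simp
  have h3 := congrArg (fun u : Eˣ => j (u : E)) h1
  simp only [Units.val_pow_eq_pow_val, Units.val_zpow_eq_zpow_val, map_pow, map_zpow₀] at h3
  rw [← hθval, h3, map_inv, Units.val_inv_eq_inv_val, h2, map_inv₀, map_natCast, inv_zpow,
    zpow_neg]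

end char

end Pool.Agent.N203.TA
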