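import Pool.Agent.N203.TA.Char
import Pool.Agent.Y114.RM.All3

/-!
# Traces against the torus of a Frobenius element
-/

set_option autoImplicit false
set_option linter.unusedSectionVars false

namespace Pool.Agent.N203.TA

open NumberField Module Polynomial TensorProduct Pool.Agent.W569.FM Pool.Agent.Y115.CQ
  Pool.Agent.Y115.Chi Pool.Agent.Y115.T Pool.Agent.TH118.SG Pool.Agent.Y114.RM

section idem

variable {K : Type} [Field K] {N : ℕ}

theorem prod_dvd_basis (S : Finset K) (l : K) (hl : l ∈ S) [DecidableEq K] :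
    (∏ μ ∈ S, (X - C μ)) ∣ (X - C l) * Lagrange.basis S id l := by
  rw [← Finset.mul_prod_erase S _ hl]
  apply mul_dvd_mul_left
  unfold Lagrange.basis
  apply Finset.prod_dvd_prod_of_dvd
  intro μ _
  unfold Lagrange.basisDivisor
  exact dvd_mul_left _ _

theorem idempotents (A : Matrix (Fin N) (Fin N) K) (S : Finset K)
    (hS : aeval A (∏ μ ∈ S, (X - C μ)) = 0) :
    ∃ e : K → Matrix (Fin N) (Fin N) K, (∀ l ∈ S, e l * e l = e l) ∧
      (∀ B, B * A = A * B → ∀ l, B * e l = e l * B) ∧ A = ∑ l ∈ S, l • e l := by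
  classical
  let e : K → Matrix (Fin N) (Fin N) K := fun l => aeval A (Lagrange.basis S id l)
  have hmul : ∀ l ∈ S, A * e l = l • e l := by
    intro l hl
    obtain ⟨r, hr⟩ := prod_dvd_basis S l hl
    have h1 : aeval A ((X - C l) * Lagrange.basis S id l) = 0 := by
      rw [hr, map_mul, hS, zero_mul]
    rw [map_mul, map_sub, aeval_X, aeval_C, sub_mul, sub_eq_zero] at h1
    rw [h1, Algebra.algebraMap_eq_smul_one, smul_mul_assoc, one_mul]
  have hort : ∀ l ∈ S, ∀ m ∈ S, l ≠ m → e l * e m = 0 := by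
    intro l hl m hm hlm
    have h1 : (X - C l) ∣ Lagrange.basis S id m := by
      unfold Lagrange.basis
      refine dvd_trans ?_ (Finset.dvd_prod_of_mem _ (Finset.mem_erase.2 ⟨hlm, hl⟩))
      unfold Lagrange.basisDivisor
      exact dvd_mul_left _ _
    obtain ⟨r, hr⟩ := h1
    obtain ⟨r', hr'⟩ := prod_dvd_basis S l hl
    show aeval A _ * aeval A _ = 0
    rw [← map_mul, hr]
    have h2 : Lagrange.basis S id l * ((X - C l) * r) = (∏ μ ∈ S, (X - C μ)) * (r' * r) := by
      rw [← mul_assoc, mul_comm (Lagrange.basis S id l), hr', mul_assoc]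
    rw [h2, map_mul, hS, zero_mul]
  by_cases hSne : S.Nonempty
  · have hsum : ∑ l ∈ S, e l = 1 := by
      show ∑ l ∈ S, aeval A (Lagrange.basis S id l) = 1
      rw [← map_sum, Lagrange.sum_basis (Set.injOn_id _) hSne, map_one]
    refine ⟨e, fun l hl => ?_, fun B hB l => comm_aeval hB _, ?_⟩
    · have h1 : e l * ∑ m ∈ S, e m = e l := by rw [hsum, mul_one]
      rw [Finset.mul_sum, Finset.sum_eq_single l] at h1
      · exact h1
      · intro m hm hml
        exact hort l hl m hm hml.symm
      · intro h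
        exact absurd hl h
    · calc A = A * ∑ l ∈ S, e l := by rw [hsum, mul_one]
        _ = ∑ l ∈ S, l • e l := by
          rw [Finset.mul_sum]
          exact Finset.sum_congr rfl fun l hl => hmul l hl
  · rw [Finset.not_nonempty_iff_eq_empty] at hSne
    subst hSne
    rw [Finset.prod_empty, map_one] at hS
    refine ⟨fun _ => 0, fun l hl => absurd hl (Finset.notMem_empty l), fun B _ l => by
      rw [mul_zero, zero_mul], ?_⟩
    rw [Finset.sum_empty, ← mul_one A, hS, mul_zero]

end idem

section trace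

variable {V : Type} [AddCommGroup V] [Module ℂ V] [FiniteDimensional ℂ V]

/-- the trace of an operator on the image of an idempotent -/
theorem trace_idem (htr : S_TR) {θ : Additive ℂˣ →+ ℂ} {g g' e Y : End ℂ V} (hgg : g' * g = 1)
    (he : e * e = e) (hge : g * e = e * g) (hY : IsOp θ g Y) :
    LinearMap.trace ℂ V (e * Y) = ext0 θ (LinearMap.det (g * e + (1 - e))) := by
  set h : End ℂ V := g * e + (1 - e) with hh
  have h1e : (1 - e) * e = 0 := by rw [sub_mul, one_mul, he, sub_self]
  have hee : e * (1 - e) = 0 := by rw [mul_sub, mul_one, he, sub_self]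
  have hhe : ∀ (β : ℂ) (k : ℕ), e * (h - algebraMap ℂ _ β) ^ k = (g - algebraMap ℂ _ β) ^ k * e := by
    intro β k
    induction k with
    | zero => rw [pow_zero, pow_zero, mul_one, one_mul]
    | succ k ih =>
      rw [pow_succ, ← mul_assoc, ih, mul_assoc, pow_succ, mul_assoc]
      congr 1
      rw [hh, mul_sub, mul_add, hee, add_zero, sub_mul, ← mul_assoc, ← hge, mul_assoc, he,
        Algebra.commutes]
  have hhe' : ∀ (β : ℂ) (k : ℕ), (1 - e) * (h - algebraMap ℂ _ β) ^ k =
      (1 - β) ^ k • (1 - e) := by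
    intro β k
    induction k with
    | zero => rw [pow_zero, pow_zero, mul_one, one_smul]
    | succ k ih =>
      have h2 : (1 - e) * (h - algebraMap ℂ (End ℂ V) β) = (1 - β) • (1 - e) := by
        have h3 : (1 - e) * (g * e) = 0 := by rw [hge, ← mul_assoc, h1e, zero_mul]
        have h4 : (1 - e) * (1 - e) = 1 - e := by rw [mul_sub, h1e, mul_one, sub_zero]
        rw [hh, mul_sub, mul_add, h3, h4, zero_add, Algebra.algebraMap_eq_smul_one, mul_smul_comm,
          mul_one, sub_smul, one_smul]
      rw [pow_succ', ← mul_assoc, h2, smul_mul_assoc, ih, smul_smul, pow_succ']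
  have hop : IsOp θ h (Y * e) := by
    intro β x hx
    obtain ⟨k, hk⟩ := mem_gen.1 hx
    have h2 : e x ∈ g.maxGenEigenspace β := by
      refine mem_gen.2 ⟨k, ?_⟩
      have h3 := congrArg (fun T => T x) (hhe β k)
      simp only [Module.End.mul_apply] at h3
      rw [← h3, hk, map_zero]
    have h3 : (1 - β) ^ k • (1 - e) x = 0 := by
      have h4 := congrArg (fun T => T x) (hhe' β k)
      simp only [Module.End.mul_apply, LinearMap.smul_apply] at h4
      rw [← h4, hk, map_zero]
    rw [Module.End.mul_apply, hY β _ h2]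
    by_cases hβ : β = 1
    · rw [hβ, ext0_one, zero_smul, zero_smul]
    · have h4 : (1 - e) x = 0 :=
        (smul_eq_zero.1 h3).resolve_left (pow_ne_zero _ (sub_ne_zero.2 (Ne.symm hβ)))
      rw [LinearMap.sub_apply, Module.End.one_apply, sub_eq_zero] at h4
      rw [← h4]
  have hinj : Function.Injective h := by
    apply injective_of_mul (g' := g' * e + (1 - e))
    have h2 : g' * (e * g) = e := by rw [← hge, ← mul_assoc, hgg, one_mul]
    have h3 : (1 - e) * (g * e) = 0 := by rw [hge, ← mul_assoc, h1e, zero_mul]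
    have h4 : (1 - e) * (1 - e) = 1 - e := by rw [mul_sub, h1e, mul_one, sub_zero]
    rw [hh, mul_add, add_mul, add_mul, h3, h4, mul_assoc g' e (1 - e), hee, mul_zero, zero_add,
      add_zero, mul_assoc g' e, ← mul_assoc e g e, ← mul_assoc g' (e * g) e, h2, he,
      add_sub_cancel]
  rw [LinearMap.trace_mul_comm]
  exact htr ℂ V θ h (Y * e) hinj hop

/-- an element of the torus which is orthogonal to the torus is zero -/
theorem tor_nondeg (g : End ℂ V) {Z : End ℂ V} (hZ : Z ∈ tor g)
    (h : ∀ Y ∈ tor g, LinearMap.trace ℂ V (Z * Y) = 0) : Z = 0 := by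
  classical
  obtain ⟨θ, hθ⟩ := hZ
  let θ' : Additive ℂˣ →+ ℂ := (starRingEnd ℂ).toAddMonoidHom.comp θ
  obtain ⟨Y, hY⟩ := exists_op g (fun z => ext0 θ' z)
  have hext : ∀ β, ext0 θ' β = starRingEnd ℂ (ext0 θ β) := by
    intro β
    by_cases hβ : β = 0
    · rw [hβ, ext0_zero, ext0_zero, map_zero]
    · rw [ext0_ne _ hβ, ext0_ne _ hβ]
      rfl
  have h1 := h Y ⟨θ', hY⟩
  have hfin : {β : ℂ | g.maxGenEigenspace β ≠ ⊥}.Finite :=
    WellFoundedGT.finite_ne_bot_of_iSupIndep g.independent_maxGenEigenspace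
  have hval : ∀ β, ∀ x ∈ g.maxGenEigenspace β, (Z * Y) x =
      ((Complex.normSq (ext0 θ β) : ℝ) : ℂ) • x := by
    intro β x hx
    rw [Module.End.mul_apply, hY β x hx, map_smul, hθ β x hx, smul_smul, hext,
      Complex.normSq_eq_conj_mul_self]
  have hmaps : ∀ β, Set.MapsTo (Z * Y) (g.maxGenEigenspace β) (g.maxGenEigenspace β) := by
    intro β x hx
    rw [hval β x hx]
    exact Submodule.smul_mem _ _ hx
  rw [LinearMap.trace_eq_sum_trace_restrict' (gen_internal g) hfin hmaps] at h1
  have hterm : ∀ β, LinearMap.trace ℂ (g.maxGenEigenspace β) ((Z * Y).restrict (hmaps β)) =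
      ((Complex.normSq (ext0 θ β) * finrank ℂ (g.maxGenEigenspace β) : ℝ) : ℂ) := by
    intro β
    have h2 : (Z * Y).restrict (hmaps β) =
        ((Complex.normSq (ext0 θ β) : ℝ) : ℂ) • (1 : End ℂ (g.maxGenEigenspace β)) := by
      refine LinearMap.ext fun x => Subtype.ext ?_
      exact hval β x x.2
    rw [h2, map_smul, LinearMap.trace_one, smul_eq_mul]
    push_cast
    rfl
  simp only [hterm] at h1
  rw [← Complex.ofReal_sum, Complex.ofReal_eq_zero, Finset.sum_eq_zero_iff_of_nonneg
    (fun β _ => mul_nonneg (Complex.normSq_nonneg _) (Nat.cast_nonneg _))] at h1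
  refine op_ext g fun β x hx => ?_
  rw [hθ β x hx, LinearMap.zero_apply]
  by_cases hbot : g.maxGenEigenspace β = ⊥
  · rw [hbot, Submodule.mem_bot] at hx
    rw [hx, smul_zero]
  · have h2 := h1 β (hfin.mem_toFinset.2 hbot)
    have h3 : (finrank ℂ (g.maxGenEigenspace β) : ℝ) ≠ 0 := by
      rw [Nat.cast_ne_zero]
      intro h4
      exact hbot (Submodule.finrank_eq_zero.1 h4)
    rw [Complex.normSq_eq_zero.1 ((mul_eq_zero.1 h2).resolve_right h3), zero_smul]

end trace

end Pool.Agent.N203.TA
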