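import Pool.Agent.N203.TA.Trace

/-!
# The trace of an endomorphism which commutes with the Galois group against the torus of a Frobenius
# element
-/

set_option autoImplicit false
set_option linter.unusedSectionVars false

namespace Pool.Agent.N203.TA

open NumberField Module Polynomial TensorProduct Pool.Agent.W569.FM Pool.Agent.Y115.CQ
  Pool.Agent.Y115.Chi Pool.Agent.Y115.T Pool.Agent.TH118.SG Pool.Agent.Y114.RM

theorem ext0_zpow (θ : Additive ℂˣ →+ ℂ) {α : ℂ} (hα : α ≠ 0) (a : ℤ) :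
    ext0 θ (α ^ a) = a * ext0 θ α := by
  rw [ext0_ne θ (zpow_ne_zero a hα), ext0_ne θ hα]
  have h1 : Units.mk0 (α ^ a) (zpow_ne_zero a hα) = (Units.mk0 α hα) ^ a := by
    apply Units.ext
    rw [Units.val_zpow_eq_zpow_val]
    rfl
  rw [h1, ofMul_zpow, map_zsmul, zsmul_eq_mul]

section

variable {ℓ : ℕ} [hℓ : Fact ℓ.Prime] [alg : Algebra ℚ_[ℓ] ℂ] {V : Type} [AddCommGroup V]
  [Module ℚ_[ℓ] V] [FiniteDimensional ℚ_[ℓ] V] {N : ℕ}

/-- the eigenvalues in a finite extension -/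
theorem exists_field (b : Basis (Fin N) ℚ_[ℓ] V) (c : End ℚ_[ℓ] V)
    (hc : ⨆ μ, End.eigenspace (c.baseChange ℂ) μ = ⊤) :
    ∃ (E : IntermediateField ℚ_[ℓ] (PadicAlgCl ℓ)) (_ : FiniteDimensional ℚ_[ℓ] E)
      (_ : E →ₐ[ℚ_[ℓ]] ℂ) (S : Finset E),
      aeval (toE E (LinearMap.toMatrix b b c)) (∏ μ ∈ S, (X - C μ)) = 0 := by
  classical
  set f : ℚ_[ℓ][X] := c.charpoly with hf
  have hf0 : f ≠ 0 := (LinearMap.charpoly_monic c).ne_zero
  set E : IntermediateField ℚ_[ℓ] (PadicAlgCl ℓ) :=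
    IntermediateField.adjoin ℚ_[ℓ] (f.rootSet (PadicAlgCl ℓ)) with hE
  have hspl : IsSplittingField ℚ_[ℓ] E f :=
    IntermediateField.adjoin_rootSet_isSplittingField (IsAlgClosed.splits _)
  have hfd : FiniteDimensional ℚ_[ℓ] E := IsSplittingField.finiteDimensional E f
  have halg : Algebra.IsAlgebraic ℚ_[ℓ] E := inferInstance
  let j : E →ₐ[ℚ_[ℓ]] ℂ := IsAlgClosed.lift
  refine ⟨E, hfd, j, (f.map (algebraMap ℚ_[ℓ] E)).roots.toFinset, ?_⟩
  set S : Finset E := (f.map (algebraMap ℚ_[ℓ] E)).roots.toFinset with hS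
  set bC : Basis (Fin N) ℂ (ℂ ⊗[ℚ_[ℓ]] V) := Algebra.TensorProduct.basis ℂ b with hbC
  -- the endomorphism over the complex numbers
  have hkill : aeval (c.baseChange ℂ) ((∏ μ ∈ S, (X - C μ)).map (j : E →+* ℂ)) = 0 := by
    refine LinearMap.ext fun x => ?_
    have hx : x ∈ ⨆ μ, End.eigenspace (c.baseChange ℂ) μ := by rw [hc]; trivial
    rw [LinearMap.zero_apply]
    induction hx using Submodule.iSup_induction' with
    | zero => rw [map_zero]
    | add x y _ _ hx hy => rw [map_add, hx, hy, add_zero]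
    | mem μ x hx =>
      by_cases hx0 : x = 0
      · rw [hx0, map_zero]
      have h1 : End.HasEigenvector (c.baseChange ℂ) μ x := ⟨hx, hx0⟩
      rw [Module.End.aeval_apply_of_hasEigenvector h1]
      have h2 : (c.charpoly.map (algebraMap ℚ_[ℓ] ℂ)).IsRoot μ := by
        rw [← LinearMap.charpoly_baseChange, ← Module.End.hasEigenvalue_iff_isRoot_charpoly]
        exact End.hasEigenvalue_of_hasEigenvector h1
      have h3 : c.charpoly.map (algebraMap ℚ_[ℓ] ℂ) =
          (f.map (algebraMap ℚ_[ℓ] E)).map (j : E →+* ℂ) := by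
        rw [Polynomial.map_map]
        congr 1
        exact (AlgHom.comp_algebraMap j).symm
      have h4 : ∃ μ' ∈ S, j μ' = μ := by
        have h5 : (f.map (algebraMap ℚ_[ℓ] E)).Splits := hspl.splits'
        have h6 := h5.eq_prod_roots_of_monic ((LinearMap.charpoly_monic c).map _)
        rw [h3, IsRoot.def, h6, Polynomial.map_multiset_prod, eval_multiset_prod,
          Multiset.map_map, Multiset.map_map] at h2
        obtain ⟨a, ha, ha'⟩ := Multiset.mem_map.1 (Multiset.prod_eq_zero_iff.1 h2)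
        refine ⟨a, Multiset.mem_toFinset.2 ha, ?_⟩
        simp only [Function.comp_apply, Polynomial.map_sub, map_X, map_C, eval_sub, eval_X,
          eval_C] at ha'
        exact (sub_eq_zero.1 ha').symm
      obtain ⟨μ', hμ', rfl⟩ := h4
      have h5 : eval (j μ') ((∏ μ ∈ S, (X - C μ)).map (j : E →+* ℂ)) = 0 := by
        rw [Polynomial.map_prod, eval_prod]
        refine Finset.prod_eq_zero hμ' ?_
        rw [Polynomial.map_sub, map_X, map_C, eval_sub, eval_X, eval_C]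
        exact sub_self _
      rw [h5, zero_smul]
  have h1 : (j : E →+* ℂ).mapMatrix
      (aeval (toE E (LinearMap.toMatrix b b c)) (∏ μ ∈ S, (X - C μ))) = 0 := by
    have h2 : (j : E →+* ℂ).mapMatrix (toE E (LinearMap.toMatrix b b c)) =
        LinearMap.toMatrix bC bC (c.baseChange ℂ) := by
      rw [hbC, LinearMap.toMatrix_baseChange]
      ext a b
      exact j.commutes _
    have h3 : ∀ (A : Matrix (Fin N) (Fin N) E) (R : E[X]), (j : E →+* ℂ).mapMatrix (aeval A R) =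
        aeval ((j : E →+* ℂ).mapMatrix A) (R.map (j : E →+* ℂ)) := by
      intro A R
      induction R using Polynomial.induction_on' with
      | add p q hp hq => rw [map_add, map_add, hp, hq, Polynomial.map_add, map_add]
      | monomial n a =>
        rw [aeval_monomial, Polynomial.map_monomial, aeval_monomial, map_mul, map_pow]
        congr 1
        rw [Algebra.algebraMap_eq_smul_one, Algebra.algebraMap_eq_smul_one]
        ext i k
        by_cases hik : i = k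
        · subst hik; simp
        · simp [hik]
    rw [h3, h2]
    have h4 : LinearMap.toMatrix bC bC (c.baseChange ℂ) =
        (LinearMap.toMatrixAlgEquiv bC).toAlgHom (c.baseChange ℂ) := rfl
    rw [h4, Polynomial.aeval_algHom_apply, hkill, map_zero]
  ext a b'
  have h2 := congrFun (congrFun h1 a) b'
  rw [RingHom.mapMatrix_apply, Matrix.map_apply, Matrix.zero_apply] at h2
  have h3 : (aeval (toE E (LinearMap.toMatrix b b c)) (∏ μ ∈ S, (X - C μ))) a b' = 0 :=
    (map_eq_zero_iff (j : E →+* ℂ) (j : E →+* ℂ).injective).1 h2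
  rw [h3, Matrix.zero_apply]

/-- **The trace formula.** -/
theorem trace_value (htr : S_TR) (b : Basis (Fin N) ℚ_[ℓ] V) (τ : GF ℚ →* End ℚ_[ℓ] V)
    (hτ : Continuous fun γ => LinearMap.toMatrix b b (τ γ)) (c : End ℚ_[ℓ] V)
    (hc : ⨆ μ, End.eigenspace (c.baseChange ℂ) μ = ⊤) (hcomm : ∀ γ, c * τ γ = τ γ * c)
    (T : Set ℕ) (hT : T.Infinite) (hTp : ∀ p ∈ T, p.Prime ∧ p ≠ ℓ)
    (hR : ∀ p ∈ T, ∀ (P : Ideal (OO ℚ)) (σ : GF ℚ), P.IsMaximal → (p : OO ℚ) ∈ P → FrobAt p P σ →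
      ∃ R : ℚ[X], R ≠ 0 ∧ aeval (τ σ⁻¹) (R.map (algebraMap ℚ ℚ_[ℓ])) = 0)
    (p : ℕ) (hp : p.Prime) (hpℓ : p ≠ ℓ) (P : Ideal (OO ℚ)) (σ : GF ℚ) (hP : P.IsMaximal)
    (hpP : (p : OO ℚ) ∈ P) (hσ : FrobAt p P σ) :
    ∃ κ : ℂ, ∀ (θ : Additive ℂˣ →+ ℂ) (Y : End ℂ (ℂ ⊗[ℚ_[ℓ]] V)),
      IsOp θ ((τ σ⁻¹).baseChange ℂ) Y →
      LinearMap.trace ℂ _ (c.baseChange ℂ * Y) = κ * ext0 θ p := by
  classical
  obtain ⟨E, _, j, S, hS⟩ := exists_field b c hc
  obtain ⟨e, he, hecomm, hsum⟩ := idempotents (toE E (LinearMap.toMatrix b b c)) S hS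
  set bC : Basis (Fin N) ℂ (ℂ ⊗[ℚ_[ℓ]] V) := Algebra.TensorProduct.basis ℂ b with hbC
  let τM : GF ℚ →* Matrix (Fin N) (Fin N) ℚ_[ℓ] :=
    (LinearMap.toMatrixAlgEquiv b : End ℚ_[ℓ] V →* Matrix (Fin N) (Fin N) ℚ_[ℓ]).comp τ
  have hτM : ∀ γ, τM γ = LinearMap.toMatrix b b (τ γ) := fun _ => rfl
  have hcommE : ∀ γ, toE E (τM γ) * toE E (LinearMap.toMatrix b b c) =
      toE E (LinearMap.toMatrix b b c) * toE E (τM γ) := by
    intro γ
    rw [hτM, ← toE_mul, ← toE_mul, ← LinearMap.toMatrix_mul, ← LinearMap.toMatrix_mul, hcomm]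
  have hRM : ∀ p ∈ T, ∀ (P : Ideal (OO ℚ)) (σ : GF ℚ), P.IsMaximal → (p : OO ℚ) ∈ P →
      FrobAt p P σ → ∃ R : ℚ[X], R ≠ 0 ∧ aeval (τM σ⁻¹) (R.map (algebraMap ℚ ℚ_[ℓ])) = 0 := by
    intro p hp P σ hP hpP hσ
    obtain ⟨R, hR0, hRk⟩ := hR p hp P σ hP hpP hσ
    refine ⟨R, hR0, ?_⟩
    have h1 : τM σ⁻¹ = (LinearMap.toMatrixAlgEquiv b).toAlgHom (τ σ⁻¹) := rfl
    rw [h1, Polynomial.aeval_algHom_apply, hRk, map_zero]
  have hval : ∀ l ∈ S, ∃ (M : ℕ) (a : ℤ), 0 < M ∧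
      (j (toE E (τM σ⁻¹) * e l + (1 - e l)).det) ^ M = (p : ℂ) ^ a := fun l hl =>
    char_value E τM hτ (j : E →+* ℂ) (e l) (he l hl) (fun γ => hecomm _ (hcommE γ) l) T hT hTp hRM
      p hp hpℓ P σ hP hpP hσ
  choose! M a hM hMa using hval
  refine ⟨∑ l ∈ S, j l * ((a l : ℂ) / (M l : ℂ)), fun θ Y hY => ?_⟩
  -- the idempotents over the complex numbers
  set g : End ℂ (ℂ ⊗[ℚ_[ℓ]] V) := (τ σ⁻¹).baseChange ℂ with hg
  let eC : E → End ℂ (ℂ ⊗[ℚ_[ℓ]] V) := fun l => Matrix.toLin bC bC ((e l).map j)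
  have hmat : ∀ l, LinearMap.toMatrix bC bC (eC l) = (e l).map j := fun l =>
    LinearMap.toMatrix_toLin bC bC _
  have hmatg : LinearMap.toMatrix bC bC g = (toE E (τM σ⁻¹)).map j := by
    rw [hg, hbC, LinearMap.toMatrix_baseChange, hτM]
    ext x y
    exact (j.commutes _).symm
  have hmatc : LinearMap.toMatrix bC bC (c.baseChange ℂ) =
      (toE E (LinearMap.toMatrix b b c)).map j := by
    rw [hbC, LinearMap.toMatrix_baseChange]
    ext x y
    exact (j.commutes _).symm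
  have hmapmul : ∀ A B : Matrix (Fin N) (Fin N) E, (A * B).map j = A.map j * B.map j :=
    fun A B => Matrix.map_mul
  have hcC : c.baseChange ℂ = ∑ l ∈ S, j l • eC l := by
    apply (LinearMap.toMatrix bC bC).injective
    rw [map_sum, hmatc]
    conv_lhs => rw [hsum]
    ext x y
    rw [Matrix.map_apply, Matrix.sum_apply, Matrix.sum_apply, map_sum]
    refine Finset.sum_congr rfl fun l _ => ?_
    rw [map_smul, hmat, Matrix.smul_apply, Matrix.smul_apply, smul_eq_mul, smul_eq_mul, map_mul,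
      Matrix.map_apply]
  rw [hcC, Finset.sum_mul, map_sum, Finset.sum_mul]
  refine Finset.sum_congr rfl fun l hl => ?_
  have hid : eC l * eC l = eC l := by
    apply (LinearMap.toMatrix bC bC).injective
    rw [LinearMap.toMatrix_mul, hmat, ← hmapmul, he l hl]
  have hge : g * eC l = eC l * g := by
    apply (LinearMap.toMatrix bC bC).injective
    rw [LinearMap.toMatrix_mul, LinearMap.toMatrix_mul, hmat, hmatg, ← hmapmul, ← hmapmul,
      hecomm _ (hcommE _) l]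
  have hgg : (τ σ).baseChange ℂ * g = 1 := by
    rw [hg, ← bc_mul, ← map_mul, mul_inv_cancel, map_one, bc_one]
  have hdet : LinearMap.det (g * eC l + (1 - eC l)) =
      j (toE E (τM σ⁻¹) * e l + (1 - e l)).det := by
    rw [← LinearMap.det_toMatrix bC, map_add, map_sub, LinearMap.toMatrix_mul, hmat, hmatg,
      LinearMap.toMatrix_one]
    have h1 : j (toE E (τM σ⁻¹) * e l + (1 - e l)).det =
        ((j : E →+* ℂ).mapMatrix (toE E (τM σ⁻¹) * e l + (1 - e l))).det :=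
      RingHom.map_det (j : E →+* ℂ) _
    rw [h1, map_add, map_sub, map_mul, map_one]
    rfl
  rw [smul_mul_assoc, map_smul, smul_eq_mul, trace_idem htr hgg hid hge hY, hdet, mul_assoc]
  congr 1
  have hp0 : (p : ℂ) ≠ 0 := Nat.cast_ne_zero.2 hp.ne_zero
  have h1 := ext0_pow θ (j (toE E (τM σ⁻¹) * e l + (1 - e l)).det) (hM l hl)
  rw [hMa l hl, ext0_zpow θ hp0] at h1
  have hM0 : (M l : ℂ) ≠ 0 := Nat.cast_ne_zero.2 (hM l hl).ne'
  field_simp
  rw [h1]
  ring

end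

end Pool.Agent.N203.TA
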